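import Pool.Agent.Q287.TBlock

/-! Computations with vectors over `GF(7)` by means of natural numbers. -/

namespace Pool.Agent.Q287.Nat7

open Set Module Submodule Pool.Agent.Helper236 Pool.Agent.Q287.TBlock

instance fact7 : Fact (Nat.Prime 7) := ⟨by norm_num⟩

/-- the standard dot product -/
def dot {n : ℕ} (a x : Fin n → ZMod 7) : ZMod 7 := ∑ i, a i * x i

/-- the functional with given coefficients -/
def dotL {n : ℕ} (a : Fin n → ZMod 7) : (Fin n → ZMod 7) →ₗ[ZMod 7] ZMod 7 where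
  toFun := dot a
  map_add' x y := by
    simp only [dot, Pi.add_apply, mul_add, Finset.sum_add_distrib]
  map_smul' d x := by
    simp only [dot, Pi.smul_apply, smul_eq_mul, RingHom.id_apply, Finset.mul_sum]
    exact Finset.sum_congr rfl fun i _ => by ring

theorem eq_dot {n : ℕ} (f : (Fin n → ZMod 7) →ₗ[ZMod 7] ZMod 7) (x : Fin n → ZMod 7) :
    f x = dot (fun i => f (Pi.single i 1)) x := by
  have hx : x = ∑ i, x i • (Pi.single i (1 : ZMod 7) : Fin n → ZMod 7) := by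
    ext i
    simp [Pi.single_apply]
  conv_lhs => rw [hx]
  simp only [map_sum, map_smul, smul_eq_mul, dot]
  exact Finset.sum_congr rfl fun i _ => by ring

/-- quadruples of natural numbers -/
abbrev Q4 := ℕ × ℕ × ℕ × ℕ
/-- quintuples of natural numbers -/
abbrev Q5 := ℕ × ℕ × ℕ × ℕ × ℕ

def v4 (a : Q4) : Fin 4 → ZMod 7 := ![(a.1 : ZMod 7), a.2.1, a.2.2.1, a.2.2.2]
def v5 (a : Q5) : Fin 5 → ZMod 7 := ![(a.1 : ZMod 7), a.2.1, a.2.2.1, a.2.2.2.1, a.2.2.2.2]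

def ev4 (a x : Q4) : ℕ := (a.1 * x.1 + a.2.1 * x.2.1 + a.2.2.1 * x.2.2.1 + a.2.2.2 * x.2.2.2) % 7
def ev5 (a x : Q5) : ℕ := (a.1 * x.1 + a.2.1 * x.2.1 + a.2.2.1 * x.2.2.1 +
  a.2.2.2.1 * x.2.2.2.1 + a.2.2.2.2 * x.2.2.2.2) % 7

theorem nat_eq (a b : ℕ) : (a : ZMod 7) = b ↔ a % 7 = b % 7 := ZMod.natCast_eq_natCast_iff' a b 7

theorem dot4 (a x : Q4) : dot (v4 a) (v4 x) = (ev4 a x : ZMod 7) := by
  rw [ev4, ZMod.natCast_mod]
  simp [dot, v4, Fin.sum_univ_four]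

theorem dot5 (a x : Q5) : dot (v5 a) (v5 x) = (ev5 a x : ZMod 7) := by
  rw [ev5, ZMod.natCast_mod]
  simp [dot, v5, Fin.sum_univ_five]

theorem ev4_lt (a x : Q4) : ev4 a x < 7 := Nat.mod_lt _ (by norm_num)
theorem ev5_lt (a x : Q5) : ev5 a x < 7 := Nat.mod_lt _ (by norm_num)

theorem dot4_eq_zero (a x : Q4) : dot (v4 a) (v4 x) = 0 ↔ ev4 a x = 0 := by
  rw [dot4]
  have h := nat_eq (ev4 a x) 0
  rw [Nat.cast_zero, Nat.mod_eq_of_lt (ev4_lt a x), Nat.zero_mod] at h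
  exact h

theorem dot5_eq_zero (a x : Q5) : dot (v5 a) (v5 x) = 0 ↔ ev5 a x = 0 := by
  rw [dot5]
  have h := nat_eq (ev5 a x) 0
  rw [Nat.cast_zero, Nat.mod_eq_of_lt (ev5_lt a x), Nat.zero_mod] at h
  exact h

/-- `c x + d y = e z` -/
def comb4 (c : ℕ) (x : Q4) (d : ℕ) (y : Q4) (e : ℕ) (z : Q4) : Bool :=
  (c * x.1 + d * y.1) % 7 == (e * z.1) % 7 && (c * x.2.1 + d * y.2.1) % 7 == (e * z.2.1) % 7 &&
  (c * x.2.2.1 + d * y.2.2.1) % 7 == (e * z.2.2.1) % 7 &&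
  (c * x.2.2.2 + d * y.2.2.2) % 7 == (e * z.2.2.2) % 7

def comb5 (c : ℕ) (x : Q5) (d : ℕ) (y : Q5) (e : ℕ) (z : Q5) : Bool :=
  (c * x.1 + d * y.1) % 7 == (e * z.1) % 7 && (c * x.2.1 + d * y.2.1) % 7 == (e * z.2.1) % 7 &&
  (c * x.2.2.1 + d * y.2.2.1) % 7 == (e * z.2.2.1) % 7 &&
  (c * x.2.2.2.1 + d * y.2.2.2.1) % 7 == (e * z.2.2.2.1) % 7 &&
  (c * x.2.2.2.2 + d * y.2.2.2.2) % 7 == (e * z.2.2.2.2) % 7

theorem comb4_iff (c : ℕ) (x : Q4) (d : ℕ) (y : Q4) (e : ℕ) (z : Q4) :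
    comb4 c x d y e z = true ↔
      (c : ZMod 7) • v4 x + (d : ZMod 7) • v4 y = (e : ZMod 7) • v4 z := by
  have key : ∀ p q r s t u : ℕ, ((p : ZMod 7) * q + r * s = t * u ↔
      (p * q + r * s) % 7 = (t * u) % 7) := by
    intro p q r s t u
    rw [← nat_eq]
    push_cast
    rfl
  simp only [comb4, Bool.and_eq_true, beq_iff_eq, ← key]
  rw [funext_iff, Fin.forall_fin_succ, Fin.forall_fin_succ, Fin.forall_fin_succ,
    Fin.forall_fin_one]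
  simp only [and_assoc]
  rfl

theorem comb5_iff (c : ℕ) (x : Q5) (d : ℕ) (y : Q5) (e : ℕ) (z : Q5) :
    comb5 c x d y e z = true ↔
      (c : ZMod 7) • v5 x + (d : ZMod 7) • v5 y = (e : ZMod 7) • v5 z := by
  have key : ∀ p q r s t u : ℕ, ((p : ZMod 7) * q + r * s = t * u ↔
      (p * q + r * s) % 7 = (t * u) % 7) := by
    intro p q r s t u
    rw [← nat_eq]
    push_cast
    rfl
  simp only [comb5, Bool.and_eq_true, beq_iff_eq, ← key]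
  rw [funext_iff, Fin.forall_fin_succ, Fin.forall_fin_succ, Fin.forall_fin_succ,
    Fin.forall_fin_succ, Fin.forall_fin_one]
  simp only [and_assoc]
  rfl

theorem exists_nat (c : ZMod 7) : ∃ m : ℕ, m < 7 ∧ (m : ZMod 7) = c :=
  ⟨c.val, ZMod.val_lt c, by simp⟩

theorem exists_v4 (a : Fin 4 → ZMod 7) : ∃ b : Q4, b.1 < 7 ∧ b.2.1 < 7 ∧ b.2.2.1 < 7 ∧
    b.2.2.2 < 7 ∧ v4 b = a := by
  refine ⟨((a 0).val, (a 1).val, (a 2).val, (a 3).val), ZMod.val_lt (a 0), ZMod.val_lt (a 1),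
    ZMod.val_lt (a 2), ZMod.val_lt (a 3), ?_⟩
  ext i
  fin_cases i <;> simp [v4]

theorem exists_v5 (a : Fin 5 → ZMod 7) : ∃ b : Q5, b.1 < 7 ∧ b.2.1 < 7 ∧ b.2.2.1 < 7 ∧
    b.2.2.2.1 < 7 ∧ b.2.2.2.2 < 7 ∧ v5 b = a := by
  refine ⟨((a 0).val, (a 1).val, (a 2).val, (a 3).val, (a 4).val), ZMod.val_lt (a 0),
    ZMod.val_lt (a 1), ZMod.val_lt (a 2), ZMod.val_lt (a 3), ZMod.val_lt (a 4), ?_⟩
  ext i
  fin_cases i <;> simp [v5]

end Pool.Agent.Q287.Nat7
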