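import Mathlib

/-! Zeros of some polynomials with monotone or convex coefficients. -/

namespace Pool.Agent.Q287.RelAnalytic

open Finset

/-- Eneström–Kakeya: a polynomial with nonincreasing positive coefficients has no zero in the open
unit disk. -/
theorem kakeya (c : ℕ → ℝ) (r : ℕ) (hr : 1 ≤ r) (hpos : ∀ j < r, 0 < c j)
    (hdec : ∀ j, j + 1 < r → c (j + 1) ≤ c j) (w : ℂ) (hw : ‖w‖ < 1) :
    ∑ j ∈ range r, (c j : ℂ) * w ^ j ≠ 0 := by
  intro h0
  -- Abel summation
  have key : ∀ n, (1 - w) * ∑ j ∈ range (n + 1), (c j : ℂ) * w ^ j =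
      c 0 - ∑ j ∈ range n, ((c j : ℂ) - c (j + 1)) * w ^ (j + 1) - c n * w ^ (n + 1) := by
    intro n
    induction n with
    | zero => simp; ring
    | succ n ih =>
      rw [Finset.sum_range_succ, mul_add, ih, Finset.sum_range_succ]
      ring
  obtain ⟨n, rfl⟩ : ∃ n, r = n + 1 := ⟨r - 1, by omega⟩
  have h1 := key n
  rw [h0, mul_zero] at h1
  have h2 : (c 0 : ℂ) = ∑ j ∈ range n, ((c j : ℂ) - c (j + 1)) * w ^ (j + 1) +
      c n * w ^ (n + 1) := by linear_combination -h1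
  have h3 : ‖(c 0 : ℂ)‖ ≤ ∑ j ∈ range n, (c j - c (j + 1)) * ‖w‖ ^ (j + 1) +
      c n * ‖w‖ ^ (n + 1) := by
    rw [h2]
    refine (norm_add_le _ _).trans (add_le_add ((norm_sum_le _ _).trans (Finset.sum_le_sum ?_)) ?_)
    · intro j hj
      have hj' := Finset.mem_range.1 hj
      rw [norm_mul, norm_pow, ← Complex.ofReal_sub, Complex.norm_real, Real.norm_eq_abs,
        abs_of_nonneg (sub_nonneg.2 (hdec j (by omega)))]
    · rw [norm_mul, norm_pow, Complex.norm_real, Real.norm_eq_abs,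
        abs_of_pos (hpos n (by omega))]
  have h4 : ∑ j ∈ range n, (c j - c (j + 1)) * ‖w‖ ^ (j + 1) + c n * ‖w‖ ^ (n + 1) < c 0 := by
    have hw0 := norm_nonneg w
    have h5 : ∑ j ∈ range n, (c j - c (j + 1)) * ‖w‖ ^ (j + 1) ≤
        ∑ j ∈ range n, (c j - c (j + 1)) := by
      apply Finset.sum_le_sum
      intro j hj
      have hj' := Finset.mem_range.1 hj
      have h6 : ‖w‖ ^ (j + 1) ≤ 1 := pow_le_one₀ hw0 hw.le
      have h7 := sub_nonneg.2 (hdec j (by omega))
      nlinarith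
    rw [Finset.sum_range_sub'] at h5
    have h6 : c n * ‖w‖ ^ (n + 1) < c n := by
      have h7 : ‖w‖ ^ (n + 1) < 1 := pow_lt_one₀ hw0 hw (Nat.succ_ne_zero n)
      have h8 := hpos n (by omega)
      nlinarith
    linarith
  rw [Complex.norm_real, Real.norm_eq_abs, abs_of_pos (hpos 0 (by omega))] at h3
  linarith

/-- `Φ N = N sin θ - sin (N θ)`. -/
noncomputable def Phi (θ : ℝ) (N : ℕ) : ℝ := N * Real.sin θ - Real.sin (N * θ)

theorem abs_sin_nat_mul_lt (θ : ℝ) (h0 : 0 < θ) (hπ : θ < Real.pi) (N : ℕ) (hN : 2 ≤ N) :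
    |Real.sin (N * θ)| < N * Real.sin θ := by
  have hs : 0 < Real.sin θ := Real.sin_pos_of_pos_of_lt_pi h0 hπ
  induction N, hN using Nat.le_induction with
  | base =>
    have h1 : ((2 : ℕ) : ℝ) * θ = 2 * θ := by norm_num
    rw [h1, Real.sin_two_mul, abs_mul, abs_mul, abs_of_pos hs]
    have h2 : |Real.cos θ| < 1 := by
      have h3 := Real.sin_sq_add_cos_sq θ
      rw [← sq_lt_one_iff_abs_lt_one]
      nlinarith
    have h4 : |(2 : ℝ)| = 2 := by norm_num
    rw [h4]
    push_cast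
    nlinarith [abs_nonneg (Real.cos θ)]
  | succ N hN ih =>
    have h1 : ((N + 1 : ℕ) : ℝ) * θ = N * θ + θ := by push_cast; ring
    rw [h1, Real.sin_add]
    have h2 : |Real.sin (N * θ) * Real.cos θ| ≤ |Real.sin (N * θ)| := by
      rw [abs_mul]
      exact mul_le_of_le_one_right (abs_nonneg _) (Real.abs_cos_le_one θ)
    have h3 : |Real.cos (N * θ) * Real.sin θ| ≤ Real.sin θ := by
      rw [abs_mul, abs_of_pos hs]
      exact mul_le_of_le_one_left hs.le (Real.abs_cos_le_one _)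
    have h4 := abs_add_le (Real.sin (N * θ) * Real.cos θ) (Real.cos (N * θ) * Real.sin θ)
    push_cast
    linarith

theorem Phi_pos (θ : ℝ) (h0 : 0 < θ) (hπ : θ < Real.pi) (N : ℕ) (hN : 2 ≤ N) : 0 < Phi θ N := by
  have h1 := abs_sin_nat_mul_lt θ h0 hπ N hN
  have h2 := le_abs_self (Real.sin (N * θ))
  unfold Phi
  linarith

theorem Phi_diff (θ : ℝ) (j : ℕ) :
    2 * (1 - Real.cos θ) * Real.sin ((j + 1) * θ) = Phi θ (j + 2) - 2 * Phi θ (j + 1) + Phi θ j := by
  unfold Phi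
  have h1 : ((j + 2 : ℕ) : ℝ) * θ = (j + 1) * θ + θ := by push_cast; ring
  have h2 : (j : ℝ) * θ = (j + 1) * θ - θ := by ring
  have h3 : ((j + 1 : ℕ) : ℝ) * θ = (j + 1) * θ := by push_cast; ring
  rw [h1, h2, h3, Real.sin_add, Real.sin_sub]
  push_cast
  ring

/-- Double summation by parts. -/
theorem parts (d Ψ : ℕ → ℝ) (h0 : Ψ 0 = 0) (h1 : Ψ 1 = 0) (K : ℕ) :
    ∑ j ∈ range K, d j * (Ψ (j + 2) - 2 * Ψ (j + 1) + Ψ j) =
      ∑ N ∈ range K, (d N - 2 * d (N + 1) + d (N + 2)) * Ψ (N + 2) +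
        (2 * d K * Ψ (K + 1) - d K * Ψ K - d (K + 1) * Ψ (K + 1)) := by
  induction K with
  | zero => simp [h0, h1]
  | succ K ih =>
    rw [Finset.sum_range_succ, ih, Finset.sum_range_succ]
    ring

/-- A sine polynomial with convex coefficients is positive on `(0, π)`. -/
theorem sine_pos (d : ℕ → ℝ) (r : ℕ) (hr : 1 ≤ r) (hconv : ∀ j, 0 ≤ d j - 2 * d (j + 1) + d (j + 2))
    (hlast : 0 < d (r - 1)) (hz : ∀ j, r ≤ j → d j = 0) (θ : ℝ) (h0 : 0 < θ) (hπ : θ < Real.pi) :
    0 < ∑ j ∈ range r, d j * Real.sin ((j + 1) * θ) := by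
  have hcos : 0 < 2 * (1 - Real.cos θ) := by
    have h1 : Real.cos θ < 1 := by
      rw [← Real.cos_zero]
      exact Real.cos_lt_cos_of_nonneg_of_le_pi le_rfl hπ.le h0
    linarith
  rw [← mul_pos_iff_of_pos_left hcos, Finset.mul_sum]
  have h1 : ∀ j, 2 * (1 - Real.cos θ) * (d j * Real.sin ((j + 1) * θ)) =
      d j * (Phi θ (j + 2) - 2 * Phi θ (j + 1) + Phi θ j) := by
    intro j
    rw [← Phi_diff]
    ring
  simp only [h1]
  rw [parts d (Phi θ) (by simp [Phi]) (by simp [Phi]) r, hz r le_rfl, hz (r + 1) (by omega)]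
  have h2 : ∑ N ∈ range r, (d N - 2 * d (N + 1) + d (N + 2)) * Phi θ (N + 2) ≥
      (d (r - 1) - 2 * d (r - 1 + 1) + d (r - 1 + 2)) * Phi θ (r - 1 + 2) := by
    apply Finset.single_le_sum (f := fun N => (d N - 2 * d (N + 1) + d (N + 2)) * Phi θ (N + 2))
    · intro N _
      exact mul_nonneg (hconv N) (Phi_pos θ h0 hπ _ (by omega)).le
    · exact Finset.mem_range.2 (by omega)
  rw [hz (r - 1 + 1) (by omega), hz (r - 1 + 2) (by omega)] at h2
  have h3 : 0 < d (r - 1) * Phi θ (r - 1 + 2) := mul_pos hlast (Phi_pos θ h0 hπ _ (by omega))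
  nlinarith

/-- The product of a nonnegative nonincreasing convex sequence with powers of `ρ ∈ [0, 1]` is
convex. -/
theorem conv_mul (c : ℕ → ℝ) (ρ : ℝ) (h0 : 0 ≤ ρ) (h1 : ρ ≤ 1) (hpos : ∀ j, 0 ≤ c j)
    (hdec : ∀ j, c (j + 1) ≤ c j) (hconv : ∀ j, 0 ≤ c j - 2 * c (j + 1) + c (j + 2)) (j : ℕ) :
    0 ≤ c j * ρ ^ j - 2 * (c (j + 1) * ρ ^ (j + 1)) + c (j + 2) * ρ ^ (j + 2) := by
  have h2 : c j * ρ ^ j - 2 * (c (j + 1) * ρ ^ (j + 1)) + c (j + 2) * ρ ^ (j + 2) =
      ρ ^ j * ((c j - 2 * c (j + 1) + c (j + 2)) + 2 * (1 - ρ) * (c (j + 1) - c (j + 2)) +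
        (1 - ρ) ^ 2 * c (j + 2)) := by ring
  rw [h2]
  apply mul_nonneg (pow_nonneg h0 j)
  have h3 := hconv j
  have h4 := hdec (j + 1)
  have h5 := hpos (j + 2)
  have h6 : 0 ≤ 2 * (1 - ρ) * (c (j + 1) - c (j + 2)) :=
    mul_nonneg (by linarith) (by linarith)
  have h7 : 0 ≤ (1 - ρ) ^ 2 * c (j + 2) := mul_nonneg (sq_nonneg _) h5
  linarith

/-- Abel summation. -/
theorem abel (c a : ℕ → ℝ) (n : ℕ) : ∑ j ∈ range n, c j * a j =
    ∑ l ∈ range n, (c l - c (l + 1)) * (∑ j ∈ range (l + 1), a j) + c n * ∑ j ∈ range n, a j := by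
  induction n with
  | zero => simp
  | succ n ih =>
    rw [Finset.sum_range_succ, ih, Finset.sum_range_succ (fun l => (c l - c (l + 1)) *
      (∑ j ∈ range (l + 1), a j)), Finset.sum_range_succ a]
    ring

theorem alt_geom (x : ℝ) (hx : 0 ≤ x) (n : ℕ) :
    ∑ j ∈ range n, (-1) ^ j * x ^ (j + 1) = x * (1 - (-x) ^ n) / (1 + x) := by
  have h : (1 + x) ≠ 0 := by positivity
  rw [eq_div_iff h]
  induction n with
  | zero => simp
  | succ n ih =>
    rw [Finset.sum_range_succ, add_mul, ih, neg_pow, neg_pow x (n + 1)]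
    ring

theorem sum_pairs (f : ℕ → ℝ) (K : ℕ) :
    ∑ l ∈ range (2 * K), f l = ∑ i ∈ range K, (f (2 * i) + f (2 * i + 1)) := by
  induction K with
  | zero => simp
  | succ K ih =>
    rw [Finset.sum_range_succ, ← ih, show 2 * (K + 1) = 2 * K + 1 + 1 by ring,
      Finset.sum_range_succ, Finset.sum_range_succ]
    ring

/-- The alternating polynomial with convex coefficients is smaller at `x < 1` than at `1`. -/
theorem alt_lt (c : ℕ → ℝ) (r : ℕ) (hr : 1 ≤ r) (hconv : ∀ j, 0 ≤ c j - 2 * c (j + 1) + c (j + 2))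
    (hlast : 0 < c (r - 1)) (hz : ∀ j, r ≤ j → c j = 0) (x : ℝ) (h0 : 0 < x) (h1 : x < 1) :
    ∑ j ∈ range r, c j * ((-1) ^ j * x ^ (j + 1)) < ∑ j ∈ range r, c j * (-1) ^ j := by
  -- extend the sums to an even length
  have hext : ∀ a : ℕ → ℝ, ∑ j ∈ range r, c j * a j = ∑ j ∈ range (2 * r), c j * a j := by
    intro a
    apply Finset.sum_subset
    · intro j hj
      rw [Finset.mem_range] at hj ⊢
      omega
    · intro j _ hj
      rw [Finset.mem_range, not_lt] at hj
      rw [hz j hj, zero_mul]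
  have hδ : ∀ j, c (j + 1) - c (j + 2) ≤ c j - c (j + 1) := by
    intro j
    have := hconv j
    linarith
  have hδ' : ∀ j k, j ≤ k → c k - c (k + 1) ≤ c j - c (j + 1) := by
    intro j k hjk
    induction k, hjk using Nat.le_induction with
    | base => exact le_rfl
    | succ k _ ih => exact (hδ k).trans ih
  have hδr : c (r - 1) - c (r - 1 + 1) = c (r - 1) := by
    rw [hz (r - 1 + 1) (by omega), sub_zero]
  have hδpos : ∀ j, 0 ≤ c j - c (j + 1) := by
    intro j
    rcases Nat.lt_or_ge j r with hj | hj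
    · have := hδ' j (r - 1) (by omega)
      linarith
    · rw [hz j hj, hz (j + 1) (by omega), sub_zero]
  have hδ0 : 0 < c 0 - c 1 := by
    have := hδ' 0 (r - 1) (by omega)
    simp only [zero_add] at this
    linarith
  rw [hext (fun j => (-1) ^ j * x ^ (j + 1)), hext (fun j => (-1) ^ j),
    abel c (fun j => (-1) ^ j * x ^ (j + 1)), abel c (fun j => (-1) ^ j),
    hz (2 * r) (by omega), zero_mul, zero_mul, add_zero, add_zero,
    ← sub_pos, ← Finset.sum_sub_distrib]
  have hx1 : (0 : ℝ) < 1 + x := by linarith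
  have hA : ∀ l, (∑ j ∈ range (l + 1), (-1 : ℝ) ^ j) - ∑ j ∈ range (l + 1), (-1) ^ j * x ^ (j + 1) =
      (1 - (-1) ^ (l + 1)) / 2 - x * (1 - (-x) ^ (l + 1)) / (1 + x) := by
    intro l
    have h2 := alt_geom 1 (by norm_num) (l + 1)
    have h3 := alt_geom x h0.le (l + 1)
    simp only [one_pow, mul_one, one_mul] at h2
    rw [h2, h3]
    norm_num
  have h4 : ∑ l ∈ range (2 * r), ((c l - c (l + 1)) * (∑ j ∈ range (l + 1), (-1 : ℝ) ^ j) -
      (c l - c (l + 1)) * ∑ j ∈ range (l + 1), (-1) ^ j * x ^ (j + 1)) =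
      ∑ l ∈ range (2 * r), (c l - c (l + 1)) *
        ((1 - (-1) ^ (l + 1)) / 2 - x * (1 - (-x) ^ (l + 1)) / (1 + x)) := by
    apply Finset.sum_congr rfl
    intro l _
    rw [← mul_sub, hA]
  rw [h4, sum_pairs]
  have hterm : ∀ i, (c (2 * i) - c (2 * i + 1)) *
        ((1 - (-1) ^ (2 * i + 1)) / 2 - x * (1 - (-x) ^ (2 * i + 1)) / (1 + x)) +
      (c (2 * i + 1) - c (2 * i + 1 + 1)) *
        ((1 - (-1) ^ (2 * i + 1 + 1)) / 2 - x * (1 - (-x) ^ (2 * i + 1 + 1)) / (1 + x)) =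
      (1 - x ^ (2 * i + 2)) / (1 + x) *
        ((c (2 * i) - c (2 * i + 1)) - x * (c (2 * i + 1) - c (2 * i + 1 + 1))) := by
    intro i
    have e1 : (-1 : ℝ) ^ (2 * i + 1) = -1 := by rw [pow_succ, pow_mul]; norm_num
    have e2 : (-1 : ℝ) ^ (2 * i + 1 + 1) = 1 := by rw [pow_succ, e1]; norm_num
    have e3 : (-x) ^ (2 * i + 1) = -x ^ (2 * i + 1) := by
      rw [neg_pow, e1]; ring
    have e4 : (-x) ^ (2 * i + 1 + 1) = x ^ (2 * i + 2) := by
      rw [neg_pow, e2]; ring
    rw [e1, e2, e3, e4]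
    field_simp
    ring
  have hnn : ∀ i, 0 ≤ (1 - x ^ (2 * i + 2)) / (1 + x) *
        ((c (2 * i) - c (2 * i + 1)) - x * (c (2 * i + 1) - c (2 * i + 1 + 1))) := by
    intro i
    apply mul_nonneg
    · apply div_nonneg _ hx1.le
      have : x ^ (2 * i + 2) ≤ 1 := pow_le_one₀ h0.le h1.le
      linarith
    · have h5 := hδ (2 * i)
      have h6 := hδpos (2 * i + 1)
      have h7 := hδpos (2 * i)
      have h8 : c (2 * i + 1 + 1) = c (2 * i + 2) := rfl
      rw [h8] at h6 ⊢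
      nlinarith
  simp only [hterm]
  apply Finset.sum_pos' (fun i _ => hnn i)
  refine ⟨0, Finset.mem_range.2 (by omega), ?_⟩
  apply mul_pos
  · apply div_pos _ hx1
    have : x ^ (2 * 0 + 2) < 1 := pow_lt_one₀ h0.le h1 (by norm_num)
    linarith
  · have h5 := hδ 0
    have h6 := hδpos 1
    simp only [mul_zero, zero_add] at *
    have h7 : c (1 + 1) = c 2 := rfl
    rw [h7] at h6 ⊢
    nlinarith

/-- The main analytic lemma. -/
theorem convex_ne_zero (c : ℕ → ℝ) (r : ℕ) (hr : 1 ≤ r) (hpos : ∀ j, 0 ≤ c j)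
    (hconv : ∀ j, 0 ≤ c j - 2 * c (j + 1) + c (j + 2))
    (hlast : 0 < c (r - 1)) (hz : ∀ j, r ≤ j → c j = 0) (h : ℝ)
    (hh : ∑ j ∈ range r, c j * (-1) ^ j ≤ h) (w : ℂ) (hw : ‖w‖ < 1) :
    (h : ℂ) + ∑ j ∈ range r, (c j : ℂ) * w ^ (j + 1) ≠ 0 ∨ w = 0 := by
  have hdec : ∀ j, c (j + 1) ≤ c j := by
    have hδ' : ∀ j k, j ≤ k → c k - c (k + 1) ≤ c j - c (j + 1) := by
      intro j k hjk
      induction k, hjk using Nat.le_induction with
      | base => exact le_rfl
      | succ k _ ih =>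
        have := hconv k
        linarith
    intro j
    rcases Nat.lt_or_ge j r with hj | hj
    · have h1 := hδ' j (r - 1) (by omega)
      have h2 : c (r - 1 + 1) = 0 := hz _ (by omega)
      linarith
    · rw [hz j hj, hz (j + 1) (by omega)]
  by_cases hw0 : w = 0
  · exact Or.inr hw0
  left
  -- positivity of the imaginary part in the upper half plane
  have him : ∀ w : ℂ, w ≠ 0 → ‖w‖ < 1 → 0 < w.im →
      (h : ℂ) + ∑ j ∈ range r, (c j : ℂ) * w ^ (j + 1) ≠ 0 := by
    intro w hw0 hw hwim h0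
    set ρ := ‖w‖ with hρ
    set θ := w.arg with hθ
    have hρ0 : 0 < ρ := norm_pos_iff.2 hw0
    have hθ0 : 0 < θ := by
      rw [hθ]
      rcases (Complex.arg_nonneg_iff.2 hwim.le).lt_or_eq with h1 | h1
      · exact h1
      · exfalso
        have := Complex.arg_eq_zero_iff.1 h1.symm
        linarith [this.2]
    have hθπ : θ < Real.pi := by
      rcases (Complex.arg_le_pi w).lt_or_eq with h1 | h1
      · exact h1
      · exfalso
        have := Complex.arg_eq_pi_iff.1 h1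
        linarith [this.2]
    have hpow : ∀ j : ℕ, (w ^ (j + 1)).im = ρ ^ (j + 1) * Real.sin ((j + 1) * θ) := by
      intro j
      have h1 : w = ρ * Complex.exp (θ * Complex.I) := (Complex.norm_mul_exp_arg_mul_I w).symm
      have h2 : ((j + 1 : ℕ) : ℂ) * ((θ : ℂ) * Complex.I) = (((j + 1) * θ : ℝ) : ℂ) * Complex.I := by
        push_cast
        ring
      have h3 : w ^ (j + 1) = ((ρ ^ (j + 1) : ℝ) : ℂ) *
          Complex.exp ((((j + 1) * θ : ℝ) : ℂ) * Complex.I) := by
        conv_lhs => rw [h1]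
        rw [mul_pow, ← Complex.exp_nat_mul, h2, Complex.ofReal_pow]
      rw [h3, Complex.im_ofReal_mul, Complex.exp_ofReal_mul_I_im]
    have h1 := congrArg Complex.im h0
    rw [Complex.add_im, Complex.ofReal_im, zero_add, Complex.im_sum, Complex.zero_im] at h1
    have h2 : ∀ j, ((c j : ℂ) * w ^ (j + 1)).im = ρ * ((c j * ρ ^ j) * Real.sin ((j + 1) * θ)) := by
      intro j
      rw [Complex.im_ofReal_mul, hpow]
      ring
    simp only [h2] at h1
    rw [← Finset.mul_sum] at h1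
    have h3 := sine_pos (fun j => c j * ρ ^ j) r hr
      (conv_mul c ρ hρ0.le hw.le hpos hdec hconv) (mul_pos hlast (pow_pos hρ0 _))
      (fun j hj => by simp only [hz j hj, zero_mul]) θ hθ0 hθπ
    have h4 := mul_pos hρ0 h3
    linarith
  rcases lt_trichotomy w.im 0 with hwi | hwi | hwi
  · -- conjugate
    intro h0
    apply him ((starRingEnd ℂ) w) (by simpa using hw0) (by simpa using hw) (by simpa using hwi)
    have h1 := congrArg (starRingEnd ℂ) h0
    simpa [map_add, map_sum, map_mul, map_pow] using h1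
  · -- real
    obtain ⟨x, rfl⟩ : ∃ x : ℝ, w = x := ⟨w.re, by
      apply Complex.ext
      · simp
      · simpa using hwi⟩
    rw [Complex.norm_real, Real.norm_eq_abs, abs_lt] at hw
    have hx0 : x ≠ 0 := by
      intro h1
      exact hw0 (by rw [h1]; simp)
    intro h0
    have h1 : h + ∑ j ∈ range r, c j * x ^ (j + 1) = 0 := by
      exact_mod_cast h0
    rcases lt_or_gt_of_ne hx0 with hx | hx
    · -- negative
      have h2 := alt_lt c r hr hconv hlast hz (-x) (by linarith) (by linarith)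
      have h3 : ∀ j, c j * ((-1) ^ j * (-x) ^ (j + 1)) = -(c j * x ^ (j + 1)) := by
        intro j
        rw [neg_pow x (j + 1), pow_succ (-1 : ℝ) j]
        have : ((-1 : ℝ) ^ j) * ((-1) ^ j) = 1 := by
          rw [← mul_pow]; norm_num
        linear_combination (-c j * x ^ (j + 1)) * this
      simp only [h3, Finset.sum_neg_distrib] at h2
      linarith
    · have h2 : 0 ≤ h := by
        refine le_trans ?_ hh
        have h3 : ∑ j ∈ range r, c j * (-1) ^ j = ∑ j ∈ range (2 * r), c j * (-1) ^ j := by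
          apply Finset.sum_subset
          · intro j hj
            rw [Finset.mem_range] at hj ⊢
            omega
          · intro j _ hj
            rw [Finset.mem_range, not_lt] at hj
            rw [hz j hj, zero_mul]
        rw [h3, sum_pairs]
        apply Finset.sum_nonneg
        intro i _
        have e1 : (-1 : ℝ) ^ (2 * i) = 1 := by rw [pow_mul]; norm_num
        have e2 : (-1 : ℝ) ^ (2 * i + 1) = -1 := by rw [pow_succ, e1]; norm_num
        rw [e1, e2]
        have := hdec (2 * i)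
        linarith
      have h3 : 0 < ∑ j ∈ range r, c j * x ^ (j + 1) := by
        apply Finset.sum_pos'
        · intro j _
          exact mul_nonneg (hpos j) (pow_nonneg hx.le _)
        · exact ⟨r - 1, Finset.mem_range.2 (by omega), mul_pos hlast (pow_pos hx _)⟩
      linarith
  · exact him w hw0 hw hwi

end Pool.Agent.Q287.RelAnalytic
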