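import Mathlib

/-! Counting the bases of a coloopless paving matroid. -/

namespace Pool.Agent.Q287.RelComb

open Finset

/-- The alternating sum `∑_{j < r} (-1)^j C(n + r - 1 - j, n)`. -/
def alt (n : ℕ) : ℕ → ℤ
  | 0 => 0
  | r + 1 => ((n + r).choose n : ℤ) - alt n r

/-- The lower bound for the number of bases. -/
def A (n : ℕ) : ℕ → ℤ
  | 0 => 0
  | r + 1 => ((n + r + 1).choose r : ℤ) + alt n (r + 1)

theorem alt_pascal (n r : ℕ) : alt (n + 1) (r + 1) = alt n (r + 1) + alt (n + 1) r := by
  induction r with
  | zero => simp [alt]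
  | succ r ih =>
    have h1 : alt (n + 1) (r + 1 + 1) = ((n + 1 + (r + 1)).choose (n + 1) : ℤ) - alt (n + 1) (r + 1) :=
      rfl
    have h2 : alt n (r + 1 + 1) = ((n + (r + 1)).choose n : ℤ) - alt n (r + 1) := rfl
    have h3 : alt (n + 1) (r + 1) = ((n + 1 + r).choose (n + 1) : ℤ) - alt (n + 1) r := rfl
    have h4 : (n + 1 + (r + 1)).choose (n + 1) = (n + (r + 1)).choose n + (n + 1 + r).choose (n + 1) := by
      rw [show n + 1 + (r + 1) = (n + (r + 1)) + 1 by ring, Nat.choose_succ_succ,
        show n + 1 + r = n + (r + 1) by ring]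
    rw [h1, h2, h4]
    push_cast
    linarith

theorem A_pascal (n r : ℕ) : A (n + 1) (r + 2) = A n (r + 2) + A (n + 1) (r + 1) := by
  have h1 : A (n + 1) (r + 2) = ((n + 1 + (r + 1) + 1).choose (r + 1) : ℤ) + alt (n + 1) (r + 2) := rfl
  have h2 : A n (r + 2) = ((n + (r + 1) + 1).choose (r + 1) : ℤ) + alt n (r + 2) := rfl
  have h3 : A (n + 1) (r + 1) = ((n + 1 + r + 1).choose r : ℤ) + alt (n + 1) (r + 1) := rfl
  have h4 : (n + 1 + (r + 1) + 1).choose (r + 1) =
      (n + (r + 1) + 1).choose (r + 1) + (n + 1 + r + 1).choose r := by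
    rw [show n + 1 + (r + 1) + 1 = (n + 1 + r + 1) + 1 by ring, Nat.choose_succ_succ,
      show n + (r + 1) + 1 = n + 1 + r + 1 by ring, add_comm]
  rw [h1, h2, h3, h4, alt_pascal n (r + 1)]
  push_cast
  ring

theorem A_two (n r : ℕ) : A n (r + 2) = 2 * ((n + r + 1).choose (r + 1) : ℤ) + A n r := by
  have h1 : A n (r + 2) = ((n + (r + 1) + 1).choose (r + 1) : ℤ) + alt n (r + 2) := rfl
  have h2 : alt n (r + 2) = ((n + (r + 1)).choose n : ℤ) - alt n (r + 1) := rfl
  have h3 : alt n (r + 1) = ((n + r).choose n : ℤ) - alt n r := rfl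
  have h4 : (n + (r + 1)).choose n = (n + r + 1).choose (r + 1) := by
    rw [show n + r + 1 = n + (r + 1) by ring]
    exact Nat.choose_symm_add
  have h5 : (n + r).choose n = (n + r).choose r := Nat.choose_symm_add
  have h6 : (n + (r + 1) + 1).choose (r + 1) = (n + r + 1).choose (r + 1) + (n + r + 1).choose r := by
    rw [show n + (r + 1) + 1 = (n + r + 1) + 1 by ring, Nat.choose_succ_succ, add_comm]
  rw [h1, h2, h3, h4, h5, h6]
  cases r with
  | zero => simp [A, alt]; ring
  | succ r =>
    have h7 : A n (r + 1) = ((n + r + 1).choose r : ℤ) + alt n (r + 1) := rfl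
    have h8 : (n + (r + 1) + 1).choose (r + 1) = (n + (r + 1)).choose (r + 1) + (n + r + 1).choose r := by
      rw [Nat.choose_succ_succ (n + (r + 1)) r, add_comm, show n + (r + 1) = n + r + 1 by ring]
    rw [h7, h8]
    push_cast
    ring

variable {α : Type*} [DecidableEq α]

/-- The circuit exchange property of a paving matroid of rank `r`. -/
def P (E : Finset α) (r : ℕ) (B : Finset α → Prop) : Prop :=
  ∀ X ⊆ E, X.card = r + 1 → ∀ N₁ ⊆ X, N₁.card = r → ∀ N₂ ⊆ X, N₂.card = r → N₁ ≠ N₂ → ¬ B N₁ →
    ¬ B N₂ → ∀ N ⊆ X, N.card = r → ¬ B N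

/-- There are no coloops. -/
def CL (E : Finset α) (r : ℕ) (B : Finset α → Prop) : Prop :=
  ∀ e ∈ E, ∃ N ⊆ E.erase e, N.card = r ∧ B N

omit [DecidableEq α] in
theorem P.mono {E E' : Finset α} {r : ℕ} {B : Finset α → Prop} (h : P E r B) (hE : E' ⊆ E) :
    P E' r B := fun X hX => h X (hX.trans hE)

theorem P.contract {E : Finset α} {r : ℕ} {B : Finset α → Prop} (h : P E (r + 1) B) {e : α}
    (he : e ∈ E) : P (E.erase e) r (fun N => B (insert e N)) := by
  intro X hX hXc N₁ hN₁ hc₁ N₂ hN₂ hc₂ hne hB₁ hB₂ N hN hc
  have heX : e ∉ X := fun h1 => (Finset.mem_erase.1 (hX h1)).1 rfl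
  have hcard : ∀ N ⊆ X, N.card = r → (insert e N).card = r + 1 := by
    intro N hN hc
    rw [Finset.card_insert_of_notMem (fun h1 => heX (hN h1)), hc]
  refine h (insert e X) ?_ (by rw [Finset.card_insert_of_notMem heX, hXc]) (insert e N₁)
    (Finset.insert_subset_insert e hN₁) (hcard N₁ hN₁ hc₁) (insert e N₂)
    (Finset.insert_subset_insert e hN₂) (hcard N₂ hN₂ hc₂) ?_ hB₁ hB₂ (insert e N)
    (Finset.insert_subset_insert e hN) (hcard N hN hc)
  · intro x hx
    rcases Finset.mem_insert.1 hx with rfl | hx
    · exact he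
    · exact Finset.mem_of_mem_erase (hX hx)
  · intro h1
    apply hne
    have h2 := congrArg (fun S => S.erase e) h1
    simpa [Finset.erase_insert (fun h1 => heX (hN₁ h1)), Finset.erase_insert (fun h1 => heX (hN₂ h1))]
      using h2

theorem CL.contract {E : Finset α} {r : ℕ} {B : Finset α → Prop} (hP : P E (r + 2) B)
    (h : CL E (r + 2) B) {e : α} (he : e ∈ E) : CL (E.erase e) (r + 1) (fun N => B (insert e N)) := by
  intro f hf
  obtain ⟨hfe, hfE⟩ := Finset.mem_erase.1 hf
  obtain ⟨N0, hN0, hc0, hB0⟩ := h f hfE
  have hfN0 : f ∉ N0 := fun h1 => (Finset.mem_erase.1 (hN0 h1)).1 rfl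
  have hN0E : N0 ⊆ E := fun x hx => Finset.mem_of_mem_erase (hN0 hx)
  by_cases heN : e ∈ N0
  · refine ⟨N0.erase e, ?_, by rw [Finset.card_erase_of_mem heN, hc0]; rfl, ?_⟩
    · intro x hx
      obtain ⟨h1, h2⟩ := Finset.mem_erase.1 hx
      exact Finset.mem_erase.2 ⟨fun h3 => hfN0 (h3 ▸ h2), Finset.mem_erase.2 ⟨h1, hN0E h2⟩⟩
    · show B (insert e (N0.erase e))
      rw [Finset.insert_erase heN]
      exact hB0
  · -- use the circuit property for `insert e N0`
    obtain ⟨a, ha, b, hb, hab⟩ := Finset.one_lt_card.1 (by omega : 1 < N0.card)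
    have hXc : (insert e N0).card = r + 2 + 1 := by rw [Finset.card_insert_of_notMem heN, hc0]
    have hXE : insert e N0 ⊆ E := Finset.insert_subset he hN0E
    have hsub : ∀ y ∈ N0, insert e (N0.erase y) ⊆ insert e N0 :=
      fun y _ => Finset.insert_subset_insert e (Finset.erase_subset y N0)
    have hcc : ∀ y ∈ N0, (insert e (N0.erase y)).card = r + 2 := by
      intro y hy
      rw [Finset.card_insert_of_notMem (fun h1 => heN (Finset.mem_of_mem_erase h1)),
        Finset.card_erase_of_mem hy, hc0]
      omega
    have hone : B (insert e (N0.erase a)) ∨ B (insert e (N0.erase b)) := by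
      by_contra hcon
      rw [not_or] at hcon
      refine hP (insert e N0) hXE hXc _ (hsub a ha) (hcc a ha) _ (hsub b hb) (hcc b hb) ?_ hcon.1
        hcon.2 N0 (Finset.subset_insert e N0) hc0 hB0
      intro h1
      have h2 : b ∈ insert e (N0.erase a) :=
        Finset.mem_insert_of_mem (Finset.mem_erase.2 ⟨hab.symm, hb⟩)
      rw [h1] at h2
      rcases Finset.mem_insert.1 h2 with h3 | h3
      · exact heN (h3 ▸ hb)
      · exact (Finset.mem_erase.1 h3).1 rfl
    have hfin : ∀ y ∈ N0, B (insert e (N0.erase y)) → ∃ N ⊆ (E.erase e).erase f, N.card = r + 1 ∧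
        B (insert e N) := by
      intro y hy hBy
      refine ⟨N0.erase y, ?_, by rw [Finset.card_erase_of_mem hy, hc0]; rfl, hBy⟩
      intro x hx
      have h2 := Finset.mem_of_mem_erase hx
      exact Finset.mem_erase.2 ⟨fun h3 => hfN0 (h3 ▸ h2), Finset.mem_erase.2
        ⟨fun h3 => heN (h3 ▸ h2), hN0E h2⟩⟩
    rcases hone with h1 | h1
    · exact hfin a ha h1
    · exact hfin b hb h1

open Classical in
/-- Splitting a count of subsets at one element. -/
theorem count_insert (S : Finset α) (e : α) (he : e ∉ S) (r : ℕ) (B : Finset α → Prop) :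
    (((insert e S).powersetCard (r + 1)).filter B).card =
      ((S.powersetCard (r + 1)).filter B).card +
        ((S.powersetCard r).filter (fun N => B (insert e N))).card := by
  rw [Finset.powersetCard_succ_insert he, Finset.filter_union, Finset.card_union_of_disjoint,
    Finset.filter_image, Finset.card_image_of_injOn]
  · intro N hN N' hN' hEq
    have h1 : e ∉ N := fun h => he ((Finset.mem_powersetCard.1 (Finset.mem_filter.1 hN).1).1 h)
    have h2 : e ∉ N' := fun h => he ((Finset.mem_powersetCard.1 (Finset.mem_filter.1 hN').1).1 h)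
    have h3 := congrArg (fun S => S.erase e) hEq
    simpa [Finset.erase_insert h1, Finset.erase_insert h2] using h3
  · rw [Finset.disjoint_left]
    intro N hN hN'
    have h1 := (Finset.mem_powersetCard.1 (Finset.mem_filter.1 hN).1).1
    obtain ⟨N'', _, rfl⟩ := Finset.mem_image.1 (Finset.mem_filter.1 hN').1
    exact he (h1 (Finset.mem_insert_self e N''))

/-- Connectivity of the Johnson graph. -/
theorem johnson (S : Finset α) (k : ℕ) (Q : Finset α → Prop)
    (h : ∀ Y ⊆ S, Y.card = k + 1 → ∀ I ⊆ Y, I.card = k → ¬ Q I → ∀ J ⊆ Y, J.card = k → ¬ Q J)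
    (I : Finset α) (hI : I ⊆ S) (hIc : I.card = k) (hQ : ¬ Q I) :
    ∀ J ⊆ S, J.card = k → ¬ Q J := by
  intro J hJ hJc
  induction hd : (I \ J).card generalizing I with
  | zero =>
    have h1 : I ⊆ J := Finset.sdiff_eq_empty_iff_subset.1 (Finset.card_eq_zero.1 hd)
    rw [← Finset.eq_of_subset_of_card_le h1 (by omega)]
    exact hQ
  | succ d ih =>
    obtain ⟨y, hy⟩ := Finset.card_pos.1 (by omega : 0 < (I \ J).card)
    have hd' : (J \ I).card = d + 1 := by
      have h1 := Finset.card_sdiff_add_card_inter I J
      have h2 := Finset.card_sdiff_add_card_inter J I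
      rw [Finset.inter_comm] at h2
      omega
    obtain ⟨x, hx⟩ := Finset.card_pos.1 (by omega : 0 < (J \ I).card)
    obtain ⟨hyI, hyJ⟩ := Finset.mem_sdiff.1 hy
    obtain ⟨hxJ, hxI⟩ := Finset.mem_sdiff.1 hx
    have hxy : x ≠ y := fun h1 => hxI (h1 ▸ hyI)
    have hxI' : x ∉ I.erase y := fun h1 => hxI (Finset.mem_of_mem_erase h1)
    have hc : (insert x (I.erase y)).card = k := by
      rw [Finset.card_insert_of_notMem hxI', Finset.card_erase_of_mem hyI, hIc]
      have : 0 < I.card := Finset.card_pos.2 ⟨y, hyI⟩
      omega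
    have hS : insert x (I.erase y) ⊆ S :=
      Finset.insert_subset (hJ hxJ) ((Finset.erase_subset y I).trans hI)
    apply ih (insert x (I.erase y)) hS hc
    · exact h (insert x I) (Finset.insert_subset (hJ hxJ) hI)
        (by rw [Finset.card_insert_of_notMem hxI, hIc]) I (Finset.subset_insert x I) hIc hQ _
        (Finset.insert_subset_insert x (Finset.erase_subset y I)) hc
    · have h1 : insert x (I.erase y) \ J = (I \ J).erase y := by
        ext z
        simp only [Finset.mem_sdiff, Finset.mem_insert, Finset.mem_erase]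
        constructor
        · rintro ⟨rfl | ⟨h1, h2⟩, h3⟩
          · exact absurd hxJ h3
          · exact ⟨h1, h2, h3⟩
        · rintro ⟨h1, h2, h3⟩
          exact ⟨Or.inr ⟨h1, h2⟩, h3⟩
      rw [h1, Finset.card_erase_of_mem hy, hd]
      rfl

/-- If no `(r+1)`-subset of `S` is a basis, then either all the sets `I + e` are bases or none. -/
theorem all_or_none (S : Finset α) (e : α) (he : e ∉ S) (r : ℕ) (B : Finset α → Prop)
    (hP : P (insert e S) (r + 1) B) (hno : ∀ N ⊆ S, N.card = r + 1 → ¬ B N)
    (I : Finset α) (hI : I ⊆ S) (hIc : I.card = r) (hB : ¬ B (insert e I)) :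
    ∀ J ⊆ S, J.card = r → ¬ B (insert e J) := by
  apply johnson S r (fun I => B (insert e I)) _ I hI hIc hB
  intro Y hY hYc I hI hIc hBI J hJ hJc
  have heY : e ∉ Y := fun h => he (hY h)
  refine hP (insert e Y) (Finset.insert_subset_insert e hY)
    (by rw [Finset.card_insert_of_notMem heY, hYc]) (insert e I) (Finset.insert_subset_insert e hI)
    (by rw [Finset.card_insert_of_notMem (fun h => heY (hI h)), hIc]) Y (Finset.subset_insert e Y)
    hYc ?_ hBI (hno Y hY hYc) (insert e J) (Finset.insert_subset_insert e hJ)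
    (by rw [Finset.card_insert_of_notMem (fun h => heY (hJ h)), hJc])
  intro h
  exact heY (h ▸ Finset.mem_insert_self e I)

open Classical in
/-- The lower bound for the number of bases of a coloopless paving matroid. -/
theorem bound (m : ℕ) : ∀ (n r : ℕ) (E : Finset α) (B : Finset α → Prop), n + r + 1 = m →
    E.card = m → P E r B → CL E r B → A n r ≤ (((E.powersetCard r).filter B).card : ℤ) := by
  induction m using Nat.strong_induction_on with
  | _ m ih =>
  intro n r E B hm hE hP hCL
  match r, n with
  | 0, n => exact Int.natCast_nonneg _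
  | 1, n =>
    have hA : A n 1 = 2 := by simp [A, alt]
    rw [hA]
    obtain ⟨e, he⟩ : E.Nonempty := Finset.card_pos.1 (by omega)
    obtain ⟨N₁, hN₁, hc₁, hB₁⟩ := hCL e he
    obtain ⟨f, rfl⟩ := Finset.card_eq_one.1 hc₁
    have hf : f ∈ E := Finset.mem_of_mem_erase (hN₁ (Finset.mem_singleton_self f))
    obtain ⟨N₂, hN₂, hc₂, hB₂⟩ := hCL f hf
    have hne : ({f} : Finset α) ≠ N₂ := by
      rintro rfl
      exact (Finset.mem_erase.1 (hN₂ (Finset.mem_singleton_self f))).1 rfl
    have h1 : 1 < ((E.powersetCard 1).filter B).card := by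
      rw [Finset.one_lt_card]
      refine ⟨{f}, ?_, N₂, ?_, hne⟩
      · exact Finset.mem_filter.2 ⟨Finset.mem_powersetCard.2
          ⟨hN₁.trans (Finset.erase_subset e E), rfl⟩, hB₁⟩
      · exact Finset.mem_filter.2 ⟨Finset.mem_powersetCard.2
          ⟨hN₂.trans (Finset.erase_subset f E), hc₂⟩, hB₂⟩
    exact_mod_cast h1
  | r + 2, 0 =>
    -- all `(r + 2)`-subsets are bases
    have hall : ∀ N ⊆ E, N.card = r + 2 → B N := by
      intro N hN hNc
      obtain ⟨e, he, heN⟩ := Finset.exists_mem_notMem_of_card_lt_card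
        (by omega : N.card < E.card)
      obtain ⟨N', hN', hc', hB'⟩ := hCL e he
      have h1 : N ⊆ E.erase e := fun x hx => Finset.mem_erase.2 ⟨fun h => heN (h ▸ hx), hN hx⟩
      have h2 : (E.erase e).card = r + 2 := by rw [Finset.card_erase_of_mem he]; omega
      rw [Finset.eq_of_subset_of_card_le h1 (by omega),
        ← Finset.eq_of_subset_of_card_le hN' (by omega)]
      exact hB'
    have h1 : (E.powersetCard (r + 2)).filter B = E.powersetCard (r + 2) := by
      apply Finset.filter_true_of_mem
      intro N hN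
      obtain ⟨h1, h2⟩ := Finset.mem_powersetCard.1 hN
      exact hall N h1 h2
    rw [h1, Finset.card_powersetCard, hE, ← hm]
    have h2 : (0 + (r + 2) + 1).choose (r + 2) = r + 3 := by
      rw [show 0 + (r + 2) + 1 = (r + 2) + 1 by ring]
      exact Nat.choose_succ_self_right (r + 2)
    rw [h2]
    have h3 : ∀ r, A 0 (r + 2) ≤ (r + 3 : ℤ) := by
      have h5 : ∀ r, 0 ≤ alt 0 r ∧ alt 0 r ≤ 1 := by
        intro r
        induction r with
        | zero => simp [alt]
        | succ r ih =>
          have : alt 0 (r + 1) = ((0 + r).choose 0 : ℤ) - alt 0 r := rfl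
          rw [this]
          simp only [zero_add, Nat.choose_zero_right, Nat.cast_one]
          constructor <;> linarith [ih.1, ih.2]
      intro r
      have h6 : A 0 (r + 2) = ((0 + (r + 1) + 1).choose (r + 1) : ℤ) + alt 0 (r + 2) := rfl
      have h7 : (0 + (r + 1) + 1).choose (r + 1) = r + 2 := by
        rw [show 0 + (r + 1) + 1 = (r + 1) + 1 by ring]
        exact Nat.choose_succ_self_right (r + 1)
      rw [h6, h7]
      push_cast
      linarith [(h5 (r + 2)).2]
    have := h3 r
    push_cast
    linarith
  | r + 2, n + 1 =>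
    by_cases hdel : ∃ e ∈ E, CL (E.erase e) (r + 2) B
    · obtain ⟨e, he, hCLe⟩ := hdel
      have h1 := count_insert (E.erase e) e (Finset.notMem_erase e E) (r + 1) B
      rw [Finset.insert_erase he] at h1
      rw [h1]
      have hc : (E.erase e).card = m - 1 := by rw [Finset.card_erase_of_mem he, hE]
      have h2 := ih (m - 1) (by omega) n (r + 2) (E.erase e) B (by omega) hc
        (hP.mono (Finset.erase_subset e E)) hCLe
      have h3 := ih (m - 1) (by omega) (n + 1) (r + 1) (E.erase e) (fun N => B (insert e N))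
        (by omega) hc (hP.contract he) (CL.contract hP hCL he)
      rw [A_pascal]
      push_cast
      linarith
    · -- a series pair
      obtain ⟨e, he⟩ : E.Nonempty := Finset.card_pos.1 (by omega)
      have hno : ¬ CL (E.erase e) (r + 2) B := fun h => hdel ⟨e, he, h⟩
      unfold CL at hno
      push Not at hno
      obtain ⟨f, hf, hno⟩ := hno
      obtain ⟨hfe, hfE⟩ := Finset.mem_erase.1 hf
      set S := (E.erase e).erase f with hS
      have heS : e ∉ S := fun h => (Finset.mem_erase.1 (Finset.mem_of_mem_erase h)).1 rfl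
      have hfS : f ∉ S := Finset.notMem_erase f _
      have hSc : S.card = m - 2 := by
        rw [hS, Finset.card_erase_of_mem hf, Finset.card_erase_of_mem he, hE]
        omega
      have hfS' : f ∉ insert e S := by
        intro h
        rcases Finset.mem_insert.1 h with h | h
        · exact hfe h
        · exact hfS h
      have hef : e ∉ insert f S := by
        intro h
        rcases Finset.mem_insert.1 h with h | h
        · exact hfe h.symm
        · exact heS h
      have hinsf : insert f S = E.erase e := by rw [hS]; exact Finset.insert_erase hf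
      have hE2 : E = insert e (insert f S) := by rw [hinsf, Finset.insert_erase he]
      have hins : insert e S = E.erase f := by
        rw [hE2, Finset.insert_comm, Finset.erase_insert hfS']
      -- all the sets `I + e` and `I + f` are bases
      have halle : ∀ I ⊆ S, I.card = r + 1 → B (insert e I) := by
        intro I hI hIc
        by_contra hBI
        have h1 := all_or_none S e heS (r + 1) B (hP.mono (by rw [hins]; exact Finset.erase_subset f E))
          hno I hI hIc hBI
        obtain ⟨N, hN, hNc, hNB⟩ := hCL f hfE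
        rw [← hins] at hN
        by_cases heN : e ∈ N
        · have h2 : N.erase e ⊆ S := by
            intro x hx
            obtain ⟨h2, h3⟩ := Finset.mem_erase.1 hx
            exact (Finset.mem_insert.1 (hN h3)).resolve_left h2
          have h3 := h1 (N.erase e) h2 (by rw [Finset.card_erase_of_mem heN, hNc]; rfl)
          rw [Finset.insert_erase heN] at h3
          exact h3 hNB
        · have h2 : N ⊆ S := by
            intro x hx
            exact (Finset.mem_insert.1 (hN hx)).resolve_left (fun h => heN (h ▸ hx))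
          exact hno N h2 hNc hNB
      have hallf : ∀ I ⊆ S, I.card = r + 1 → B (insert f I) := by
        intro I hI hIc
        by_contra hBI
        have h1 := all_or_none S f hfS (r + 1) B (hP.mono (by rw [hinsf]; exact Finset.erase_subset e E))
          hno I hI hIc hBI
        obtain ⟨N, hN, hNc, hNB⟩ := hCL e he
        rw [← hinsf] at hN
        by_cases hfN : f ∈ N
        · have h2 : N.erase f ⊆ S := by
            intro x hx
            obtain ⟨h2, h3⟩ := Finset.mem_erase.1 hx
            exact (Finset.mem_insert.1 (hN h3)).resolve_left h2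
          have h3 := h1 (N.erase f) h2 (by rw [Finset.card_erase_of_mem hfN, hNc]; rfl)
          rw [Finset.insert_erase hfN] at h3
          exact h3 hNB
        · have h2 : N ⊆ S := by
            intro x hx
            exact (Finset.mem_insert.1 (hN hx)).resolve_left (fun h => hfN (h ▸ hx))
          exact hno N h2 hNc hNB
      have c1 := count_insert (insert f S) e hef (r + 1) B
      have c2 := count_insert S f hfS (r + 1) B
      have c3 := count_insert S f hfS r (fun N => B (insert e N))
      rw [← hE2] at c1
      have d1 : ((S.powersetCard (r + 1)).filter (fun N => B (insert f N))).card = (m - 2).choose (r + 1) := by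
        rw [Finset.filter_true_of_mem, Finset.card_powersetCard, hSc]
        intro N hN
        obtain ⟨h1, h2⟩ := Finset.mem_powersetCard.1 hN
        exact hallf N h1 h2
      have d2 : ((S.powersetCard (r + 1)).filter (fun N => B (insert e N))).card = (m - 2).choose (r + 1) := by
        rw [Finset.filter_true_of_mem, Finset.card_powersetCard, hSc]
        intro N hN
        obtain ⟨h1, h2⟩ := Finset.mem_powersetCard.1 hN
        exact halle N h1 h2
      have hm2 : m - 2 = n + 1 + r + 1 := by omega
      have d3 : A (n + 1) r ≤ (((S.powersetCard r).filter (fun N => B (insert e (insert f N)))).card : ℤ) := by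
        cases r with
        | zero => exact Int.natCast_nonneg _
        | succ r =>
          have hPe := hP.contract he
          have hCLe := CL.contract hP hCL he
          have hPf := hPe.contract hf
          have hCLf := CL.contract hPe hCLe hf
          exact ih (m - 2) (by omega) (n + 1) (r + 1) S _ (by omega) hSc hPf hCLf
      rw [c1, c2, c3, d1, d2, hm2, A_two]
      push_cast
      have h0 : (0 : ℤ) ≤ (((S.powersetCard (r + 1 + 1)).filter B).card : ℤ) := Int.natCast_nonneg _
      linarith

open Classical in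
/-- If there is a coloop then the number of bases is determined. -/
theorem coloop_count (E : Finset α) (r : ℕ) (B : Finset α → Prop) (hP : P E (r + 1) B)
    (hne : ∃ N ⊆ E, N.card = r + 1 ∧ B N) (hCL : ¬ CL E (r + 1) B) :
    ((E.powersetCard (r + 1)).filter B).card = (E.card - 1).choose r := by
  unfold CL at hCL
  push Not at hCL
  obtain ⟨e, he, hno⟩ := hCL
  have c1 := count_insert (E.erase e) e (Finset.notMem_erase e E) r B
  rw [Finset.insert_erase he] at c1
  have h1 : ((E.erase e).powersetCard (r + 1)).filter B = ∅ := by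
    rw [Finset.filter_eq_empty_iff]
    intro N hN
    obtain ⟨h1, h2⟩ := Finset.mem_powersetCard.1 hN
    exact hno N h1 h2
  obtain ⟨N, hN, hNc, hNB⟩ := hne
  have heN : e ∈ N := by
    by_contra heN
    exact hno N (fun x hx => Finset.mem_erase.2 ⟨fun h => heN (h ▸ hx), hN hx⟩) hNc hNB
  have hall : ∀ I ⊆ E.erase e, I.card = r → B (insert e I) := by
    intro I hI hIc
    by_contra hBI
    have h1 := all_or_none (E.erase e) e (Finset.notMem_erase e E) r B
      (by rw [Finset.insert_erase he]; exact hP) hno I hI hIc hBI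
    have h3 := h1 (N.erase e) (Finset.erase_subset_erase e hN)
      (by rw [Finset.card_erase_of_mem heN, hNc]; rfl)
    rw [Finset.insert_erase heN] at h3
    exact h3 hNB
  rw [c1, h1, Finset.card_empty, zero_add, Finset.filter_true_of_mem, Finset.card_powersetCard,
    Finset.card_erase_of_mem he]
  intro N hN
  obtain ⟨h1, h2⟩ := Finset.mem_powersetCard.1 hN
  exact hall N h1 h2

end Pool.Agent.Q287.RelComb
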