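import Pool.Agent.Q287.RelAnalytic
import Pool.Agent.Q287.RelComb

/-! The reliability polynomial of a paving matroid has no zero outside the closed unit disk. -/

namespace Pool.Agent.Q287.RelPaving

open Finset RelAnalytic RelComb

/-- The truncated binomial sum. -/
noncomputable def L (z : ℂ) (m r : ℕ) : ℂ :=
  ∑ k ∈ range r, (m.choose k : ℂ) * z ^ k * (1 - z) ^ (r - k)

theorem L_zero (z : ℂ) (m : ℕ) : L z m 0 = 0 := by simp [L]

theorem L_succ (z : ℂ) (m r : ℕ) : L z (m + 1) (r + 1) = L z m (r + 1) + z * L z m r := by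
  unfold L
  rw [Finset.sum_range_succ' _ r, Finset.sum_range_succ' _ r, Finset.mul_sum]
  have h : ∀ k ∈ range r, ((m + 1).choose (k + 1) : ℂ) * z ^ (k + 1) * (1 - z) ^ (r + 1 - (k + 1)) =
      (m.choose (k + 1) : ℂ) * z ^ (k + 1) * (1 - z) ^ (r + 1 - (k + 1)) +
        z * ((m.choose k : ℂ) * z ^ k * (1 - z) ^ (r - k)) := by
    intro k _
    rw [Nat.choose_succ_succ, show r + 1 - (k + 1) = r - k by omega]
    push_cast
    ring
  rw [Finset.sum_congr rfl h, Finset.sum_add_distrib]
  simp only [Nat.choose_zero_right]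
  ring

theorem L_diag (z : ℂ) (r : ℕ) : L z r r = 1 - z ^ r := by
  have h := add_pow z (1 - z) r
  rw [Finset.sum_range_succ] at h
  have h1 : L z r r = ∑ k ∈ range r, z ^ k * (1 - z) ^ (r - k) * (r.choose k : ℂ) := by
    unfold L
    apply Finset.sum_congr rfl
    intro k _
    ring
  rw [h1]
  simp only [add_sub_cancel, one_pow, Nat.sub_self, pow_zero, mul_one, Nat.choose_self,
    Nat.cast_one] at h
  linear_combination -h

theorem L_eq (z : ℂ) (n r : ℕ) : L z (n + (r + 1) + 1) (r + 1) =
    ∑ i ∈ range (r + 1), ((n + i).choose i : ℂ) * z ^ i - ((n + r + 1).choose r : ℂ) * z ^ (r + 1) := by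
  induction r generalizing n with
  | zero => simp [L]
  | succ r ihr =>
    induction n with
    | zero =>
      rw [L_succ, show 0 + (r + 1 + 1) = r + 1 + 1 by ring, L_diag]
      have h1 := ihr 0
      rw [show 0 + (r + 1) + 1 = r + 1 + 1 by ring] at h1
      rw [h1, Finset.sum_range_succ' _ (r + 1), mul_sub, Finset.mul_sum]
      have h2 : ∀ i ∈ range (r + 1), ((0 + (i + 1)).choose (i + 1) : ℂ) * z ^ (i + 1) =
          z * (((0 + i).choose i : ℂ) * z ^ i) := by
        intro i _
        simp only [zero_add, Nat.choose_self]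
        push_cast
        ring
      rw [Finset.sum_congr rfl h2]
      have h3 : (0 + (r + 1) + 1).choose (r + 1) = r + 2 := by
        rw [show 0 + (r + 1) + 1 = (r + 1) + 1 by ring]
        exact Nat.choose_succ_self_right (r + 1)
      have h4 : (0 + r + 1).choose r = r + 1 := by
        rw [show 0 + r + 1 = r + 1 by ring]
        exact Nat.choose_succ_self_right r
      rw [h3, h4]
      simp only [Nat.choose_zero_right]
      push_cast
      ring
    | succ n ihn =>
      have h1 := ihr (n + 1)
      rw [L_succ, show n + 1 + (r + 1 + 1) = n + (r + 1 + 1) + 1 by ring, ihn,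
        show n + (r + 1 + 1) + 1 = n + 1 + (r + 1) + 1 by ring, h1,
        Finset.sum_range_succ' _ (r + 1), Finset.sum_range_succ' _ (r + 1), mul_sub, Finset.mul_sum]
      have h2 : ∀ i ∈ range (r + 1), ((n + 1 + (i + 1)).choose (i + 1) : ℂ) * z ^ (i + 1) =
          ((n + (i + 1)).choose (i + 1) : ℂ) * z ^ (i + 1) +
          z * (((n + 1 + i).choose i : ℂ) * z ^ i) := by
        intro i _
        rw [show n + 1 + (i + 1) = (n + 1 + i) + 1 by ring, Nat.choose_succ_succ,
          show n + (i + 1) = n + 1 + i by ring]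
        push_cast
        ring
      rw [Finset.sum_congr rfl h2, Finset.sum_add_distrib]
      have h3 : (n + 1 + (r + 1) + 1).choose (r + 1) =
          (n + (r + 1) + 1).choose (r + 1) + (n + 1 + r + 1).choose r := by
        rw [Nat.choose_succ_succ (n + 1 + (r + 1)) r, show n + (r + 1) + 1 = n + 1 + (r + 1) by ring,
          show n + 1 + r + 1 = n + 1 + (r + 1) by ring, add_comm]
      rw [h3]
      simp only [Nat.choose_zero_right]
      push_cast
      ring

theorem alt_eq (n : ℕ) (r : ℕ) :
    (alt n r : ℝ) = ∑ j ∈ range r, ((n + r - 1 - j).choose n : ℝ) * (-1) ^ j := by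
  induction r with
  | zero => simp [alt]
  | succ r ih =>
    rw [Finset.sum_range_succ']
    have h1 : alt n (r + 1) = ((n + r).choose n : ℤ) - alt n r := rfl
    rw [h1]
    push_cast
    rw [ih]
    have h2 : ∀ j ∈ range r, ((n + (r + 1) - 1 - (j + 1)).choose n : ℝ) * (-1) ^ (j + 1) =
        -(((n + r - 1 - j).choose n : ℝ) * (-1) ^ j) := by
      intro j hj
      rw [show n + (r + 1) - 1 - (j + 1) = n + r - 1 - j by omega, pow_succ]
      ring
    rw [Finset.sum_congr rfl h2, Finset.sum_neg_distrib,
      show n + (r + 1) - 1 - 0 = n + r by omega]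
    simp
    ring

open Classical in
/-- The main statement for a family of `r`-subsets. -/
theorem main {α : Type*} [DecidableEq α] (E : Finset α) (r : ℕ) (B : Finset α → Prop)
    (hP : P E r B) (hne : ∃ N ⊆ E, N.card = r ∧ B N) (z : ℂ) (hz : 1 < ‖z‖) :
    ∑ k ∈ range r, (E.card.choose k : ℂ) * z ^ k * (1 - z) ^ (E.card - k) +
      (((E.powersetCard r).filter B).card : ℂ) * z ^ r * (1 - z) ^ (E.card - r) ≠ 0 := by
  have hz1 : 1 - z ≠ 0 := by
    intro h
    have : z = 1 := by linear_combination -h
    rw [this, norm_one] at hz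
    exact lt_irrefl _ hz
  have hz0 : z ≠ 0 := by
    intro h
    rw [h, norm_zero] at hz
    linarith
  obtain ⟨N, hN, hNc, hNB⟩ := hne
  have hrE : r ≤ E.card := hNc ▸ Finset.card_le_card hN
  rcases Nat.eq_zero_or_pos r with rfl | hr
  · have h1 : ((E.powersetCard 0).filter B).card = 1 := by
      rw [Finset.powersetCard_zero, Finset.filter_true_of_mem, Finset.card_singleton]
      intro N' hN'
      rw [Finset.mem_singleton] at hN'
      rw [hN', ← Finset.card_eq_zero.1 hNc]
      exact hNB
    rw [h1]
    simp [hz1]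
  rcases hrE.eq_or_lt with hrE | hrE
  · have h1 : N = E := Finset.eq_of_subset_of_card_le hN (by omega)
    have h2 : ((E.powersetCard r).filter B).card = 1 := by
      rw [hrE, Finset.powersetCard_self, Finset.filter_true_of_mem, Finset.card_singleton]
      intro N' hN'
      rw [Finset.mem_singleton] at hN'
      rw [hN', ← h1]
      exact hNB
    have h3 := L_diag z r
    unfold L at h3
    rw [h2, ← hrE, h3]
    simp
  obtain ⟨n, hn⟩ : ∃ n, E.card = n + r + 1 := ⟨E.card - r - 1, by omega⟩
  obtain ⟨s, rfl⟩ : ∃ s, r = s + 1 := ⟨r - 1, by omega⟩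
  set b := ((E.powersetCard (s + 1)).filter B).card with hb
  -- factor
  have h1 : ∑ k ∈ range (s + 1), (E.card.choose k : ℂ) * z ^ k * (1 - z) ^ (E.card - k) +
      (b : ℂ) * z ^ (s + 1) * (1 - z) ^ (E.card - (s + 1)) =
      (1 - z) ^ (n + 1) * (L z E.card (s + 1) + b * z ^ (s + 1)) := by
    unfold L
    rw [mul_add, Finset.mul_sum]
    congr 1
    · apply Finset.sum_congr rfl
      intro k hk
      have hk' := Finset.mem_range.1 hk
      rw [show E.card - k = (n + 1) + (s + 1 - k) by omega, pow_add]
      ring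
    · rw [show E.card - (s + 1) = n + 1 by omega]
      ring
  rw [h1, hn, L_eq z n s]
  apply mul_ne_zero (pow_ne_zero _ hz1)
  -- reciprocal variable
  set w := z⁻¹ with hw
  have hw1 : ‖w‖ < 1 := by
    rw [hw, norm_inv]
    exact inv_lt_one_of_one_lt₀ hz
  have hw0 : w ≠ 0 := inv_ne_zero hz0
  have hzw : z * w = 1 := mul_inv_cancel₀ hz0
  set h : ℤ := (b : ℤ) - ((n + s + 1).choose s : ℤ) with hh
  have h2 : ∑ i ∈ range (s + 1), ((n + i).choose i : ℂ) * z ^ i -
      ((n + s + 1).choose s : ℂ) * z ^ (s + 1) + b * z ^ (s + 1) =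
      z ^ (s + 1) * ((h : ℂ) + ∑ j ∈ range (s + 1), ((n + (s + 1) - 1 - j).choose n : ℂ) * w ^ (j + 1)) := by
    rw [mul_add, Finset.mul_sum, ← Finset.sum_range_reflect (fun i => ((n + i).choose i : ℂ) * z ^ i)]
    have h3 : ∀ j ∈ range (s + 1), ((n + (s + 1 - 1 - j)).choose (s + 1 - 1 - j) : ℂ) *
        z ^ (s + 1 - 1 - j) = z ^ (s + 1) * (((n + (s + 1) - 1 - j).choose n : ℂ) * w ^ (j + 1)) := by
      intro j hj
      have hj' := Finset.mem_range.1 hj
      have h4 : z ^ (s + 1) * w ^ (j + 1) = z ^ (s + 1 - 1 - j) := by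
        rw [show s + 1 = (s + 1 - 1 - j) + (j + 1) by omega, pow_add, mul_assoc, ← mul_pow, hzw,
          one_pow, mul_one]
        congr 1
        omega
      have h5 : (n + (s + 1 - 1 - j)).choose (s + 1 - 1 - j) = (n + (s + 1) - 1 - j).choose n := by
        rw [show n + (s + 1) - 1 - j = n + (s + 1 - 1 - j) by omega]
        exact Nat.choose_symm_add.symm
      rw [h5, ← h4]
      ring
    rw [Finset.sum_congr rfl h3, hh]
    push_cast
    ring
  rw [h2]
  apply mul_ne_zero (pow_ne_zero _ hz0)
  by_cases hCL : CL E (s + 1) B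
  · have hbd := bound (E.card) n (s + 1) E B (by omega) rfl hP hCL
    have hA : A n (s + 1) = ((n + s + 1).choose s : ℤ) + alt n (s + 1) := rfl
    rw [hA, ← hb] at hbd
    have hbd' : alt n (s + 1) ≤ h := by rw [hh]; linarith
    rcases Nat.eq_zero_or_pos n with rfl | hn0
    · -- `n = 0`
      have hall : b = s + 2 := by
        have h3 : ∀ N ⊆ E, N.card = s + 1 → B N := by
          intro N hN hNc
          obtain ⟨e, he, heN⟩ := Finset.exists_mem_notMem_of_card_lt_card
            (by omega : N.card < E.card)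
          obtain ⟨N', hN', hc', hB'⟩ := hCL e he
          have h1 : N ⊆ E.erase e := fun x hx => Finset.mem_erase.2 ⟨fun h => heN (h ▸ hx), hN hx⟩
          have h2 : (E.erase e).card = s + 1 := by rw [Finset.card_erase_of_mem he]; omega
          rw [Finset.eq_of_subset_of_card_le h1 (by omega),
            ← Finset.eq_of_subset_of_card_le hN' (by omega)]
          exact hB'
        rw [hb, Finset.filter_true_of_mem, Finset.card_powersetCard, hn,
          show 0 + (s + 1) + 1 = (s + 1) + 1 by ring]
        · exact Nat.choose_succ_self_right (s + 1)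
        · intro N hN
          obtain ⟨h1, h2⟩ := Finset.mem_powersetCard.1 hN
          exact h3 N h1 h2
      have hh1 : h = 1 := by
        rw [hh, hall, show 0 + s + 1 = s + 1 by ring, Nat.choose_succ_self_right]
        push_cast
        ring
      rw [hh1]
      have h3 := kakeya (fun _ => 1) (s + 2) (by omega) (fun _ _ => one_pos) (fun _ _ => le_rfl) w hw1
      intro h4
      apply h3
      rw [Finset.sum_range_succ', ← h4]
      simp
      ring
    · -- the convex case
      have h3 := convex_ne_zero (fun j => ((n + (s + 1) - 1 - j).choose n : ℝ)) (s + 1) (by omega)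
        (fun j => Nat.cast_nonneg _) ?_ ?_ ?_ (h : ℝ) ?_ w hw1
      · rcases h3 with h3 | h3
        · simpa using h3
        · exact absurd h3 hw0
      · intro j
        obtain ⟨n', rfl⟩ : ∃ n', n = n' + 1 := ⟨n - 1, by omega⟩
        rcases Nat.lt_or_ge j (n' + 1 + s) with hj | hj
        · rcases Nat.lt_or_ge (j + 1) (n' + 1 + s) with hj' | hj'
          · obtain ⟨i, hi⟩ : ∃ i, n' + 1 + (s + 1) - 1 - (j + 2) = i := ⟨_, rfl⟩
            have e1 : n' + 1 + (s + 1) - 1 - (j + 1) = i + 1 := by omega
            have e2 : n' + 1 + (s + 1) - 1 - j = i + 2 := by omega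
            rw [hi, e1, e2]
            have h5 : (i + 2).choose (n' + 1) = (i + 1).choose n' + (i + 1).choose (n' + 1) :=
              Nat.choose_succ_succ _ _
            have h6 : (i + 1).choose (n' + 1) = i.choose n' + i.choose (n' + 1) :=
              Nat.choose_succ_succ _ _
            have h7 : i.choose n' ≤ (i + 1).choose n' := Nat.choose_le_choose n' (by omega)
            rw [h5, h6]
            have h8 : (i.choose n' : ℝ) ≤ ((i + 1).choose n' : ℝ) := by exact_mod_cast h7
            push_cast
            linarith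
          · have e0 : n' + 1 + (s + 1) - 1 - (j + 2) = 0 := by omega
            have e1 : n' + 1 + (s + 1) - 1 - (j + 1) = 0 := by omega
            rw [e0, e1, Nat.choose_eq_zero_of_lt (Nat.succ_pos n')]
            simp
        · have e0 : n' + 1 + (s + 1) - 1 - (j + 2) = 0 := by omega
          have e1 : n' + 1 + (s + 1) - 1 - (j + 1) = 0 := by omega
          have e2 : n' + 1 + (s + 1) - 1 - j = 0 := by omega
          rw [e0, e1, e2, Nat.choose_eq_zero_of_lt (Nat.succ_pos n')]
          simp
      · have h5 : 0 < (n + (s + 1) - 1 - (s + 1 - 1)).choose n :=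
          Nat.choose_pos (by omega)
        exact_mod_cast h5
      · intro j hj
        rw [Nat.choose_eq_zero_of_lt (by omega)]
        simp
      · rw [← alt_eq]
        exact_mod_cast hbd'
  · -- a coloop
    have hc := coloop_count E s B hP ⟨N, hN, hNc, hNB⟩ hCL
    rw [← hb, hn] at hc
    have hh0 : h = 0 := by
      rw [hh, hc, show n + (s + 1) + 1 - 1 = n + s + 1 by omega]
      ring
    rw [hh0]
    have h3 := kakeya (fun j => ((n + (s + 1) - 1 - j).choose n : ℝ)) (s + 1) (by omega) ?_ ?_ w hw1
    · have h4 : ((0 : ℤ) : ℂ) + ∑ j ∈ range (s + 1), ((n + (s + 1) - 1 - j).choose n : ℂ) * w ^ (j + 1) =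
          w * ∑ j ∈ range (s + 1), (((n + (s + 1) - 1 - j).choose n : ℝ) : ℂ) * w ^ j := by
        rw [Finset.mul_sum]
        push_cast
        rw [zero_add]
        apply Finset.sum_congr rfl
        intro j _
        ring
      rw [h4]
      exact mul_ne_zero hw0 h3
    · intro j hj
      have h5 : 0 < (n + (s + 1) - 1 - j).choose n := Nat.choose_pos (by omega)
      exact_mod_cast h5
    · intro j hj
      have h5 : (n + (s + 1) - 1 - (j + 1)).choose n ≤ (n + (s + 1) - 1 - j).choose n :=
        Nat.choose_le_choose n (by omega)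
      exact_mod_cast h5

end Pool.Agent.Q287.RelPaving
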