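import Mathlib

/-! A counting lemma: revealing a set row by row. -/

namespace Pool.Agent.Q287.Reveal

open Finset

variable {α ι : Type*} [DecidableEq α] [DecidableEq ι]

/-- Restriction of a vector to the coordinates in `T`. -/
def res (T : Finset α) : (α → ZMod 2) →ₗ[ZMod 2] (α → ZMod 2) where
  toFun x := fun a => if a ∈ T then x a else 0
  map_add' x y := by funext a; by_cases h : a ∈ T <;> simp [h]
  map_smul' c x := by funext a; by_cases h : a ∈ T <;> simp [h]

theorem res_apply (T : Finset α) (x : α → ZMod 2) (a : α) :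
    res T x a = if a ∈ T then x a else 0 := rfl

theorem res_res {T T' : Finset α} (h : T ⊆ T') (x : α → ZMod 2) : res T (res T' x) = res T x := by
  funext a
  simp only [res_apply]
  by_cases ha : a ∈ T
  · simp [ha, h ha]
  · simp [ha]

theorem indep_mono {b : ι → (α → ZMod 2)} {T T' : Finset α} (h : T ⊆ T') {P : Set ι}
    (hP : LinearIndepOn (ZMod 2) (fun i => res T (b i)) P) :
    LinearIndepOn (ZMod 2) (fun i => res T' (b i)) P := by
  have : (fun i => res T (b i)) = (res T) ∘ (fun i => res T' (b i)) := by
    funext i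
    simp [res_res h]
  rw [this] at hP
  exact LinearIndepOn.of_comp (res T) hP

variable (b : ι → (α → ZMod 2)) (R : ι → Finset α) (hR : ∀ i a, b i a ≠ 0 → a ∈ R i) (L : ℕ)
  (hL : ∀ i, (R i).card ≤ L) (m : ℕ)

include hL in
theorem count (n : ℕ) : ∀ (P : Finset ι) (T : Finset α) (F : Finset (Finset α)),
    (∀ S ∈ F, T ⊆ S) →
    (∀ S ∈ F, ∀ i ∈ P, S ∩ R i ⊆ T) →
    (∀ S ∈ F, ∀ Q : Finset ι, LinearIndepOn (ZMod 2) (fun i => res S (b i)) (Q : Set ι) →
      Q.card ≤ m) →
    (∀ S ∈ F, ∀ T' ⊆ S, T ⊆ T' → ∀ Q : Finset ι, (∀ i ∈ Q, S ∩ R i ⊆ T') →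
      (∀ j, res T' (b j) ∈ Submodule.span (ZMod 2) ((fun i => res T' (b i)) '' (Q : Set ι))) →
      T' = S) →
    LinearIndepOn (ZMod 2) (fun i => res T (b i)) (P : Set ι) →
    m ≤ P.card + n → F.card ≤ (2 ^ L) ^ n := by
  induction n with
  | zero =>
    intro P T F h1 h2 h3 h4 h5 h6
    rw [pow_zero]
    apply Finset.card_le_one.2
    have key : ∀ S ∈ F, T = S := by
      intro S hS
      apply h4 S hS T (h1 S hS) (le_refl _) P (h2 S hS)
      intro j
      by_contra hj
      have hjP : j ∉ P := by
        intro hjP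
        exact hj (Submodule.subset_span ⟨j, hjP, rfl⟩)
      have hins : LinearIndepOn (ZMod 2) (fun i => res T (b i)) (insert j (P : Set ι)) :=
        h5.insert hj
      have h7 := h3 S hS (insert j P) (by
        rw [Finset.coe_insert]
        exact indep_mono (h1 S hS) hins)
      rw [Finset.card_insert_of_notMem hjP] at h7
      omega
    intro S hS S' hS'
    rw [← key S hS, ← key S' hS']
  | succ n ih =>
    intro P T F h1 h2 h3 h4 h5 h6
    by_cases hall : ∀ j, res T (b j) ∈
        Submodule.span (ZMod 2) ((fun i => res T (b i)) '' (P : Set ι))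
    · have key : ∀ S ∈ F, T = S := fun S hS =>
        h4 S hS T (h1 S hS) (le_refl _) P (h2 S hS) hall
      have hc : F.card ≤ 1 := by
        apply Finset.card_le_one.2
        intro S hS S' hS'
        rw [← key S hS, ← key S' hS']
      exact hc.trans (Nat.one_le_pow _ _ (by positivity))
    · push Not at hall
      obtain ⟨j, hj⟩ := hall
      have hjP : j ∉ P := by
        intro hjP
        exact hj (Submodule.subset_span ⟨j, hjP, rfl⟩)
      have hins : LinearIndepOn (ZMod 2) (fun i => res T (b i)) (insert j (P : Set ι)) :=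
        h5.insert hj
      have hcover : F ⊆ (R j).powerset.biUnion (fun Q => F.filter (fun S => S ∩ R j = Q)) := by
        intro S hS
        rw [mem_biUnion]
        exact ⟨S ∩ R j, mem_powerset.2 inter_subset_right, mem_filter.2 ⟨hS, rfl⟩⟩
      have hpiece : ∀ Q ∈ (R j).powerset, (F.filter (fun S => S ∩ R j = Q)).card ≤ (2 ^ L) ^ n := by
        intro Q hQ
        apply ih (insert j P) (T ∪ Q) (F.filter (fun S => S ∩ R j = Q))
        · intro S hS
          obtain ⟨hS1, hS2⟩ := mem_filter.1 hS
          apply union_subset (h1 S hS1)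
          rw [← hS2]
          exact inter_subset_left
        · intro S hS i hi
          obtain ⟨hS1, hS2⟩ := mem_filter.1 hS
          rcases mem_insert.1 hi with rfl | hi
          · rw [hS2]
            exact subset_union_right
          · exact (h2 S hS1 i hi).trans subset_union_left
        · intro S hS
          exact h3 S (mem_filter.1 hS).1
        · intro S hS T' hT' hTT'
          exact h4 S (mem_filter.1 hS).1 T' hT' (subset_union_left.trans hTT')
        · rw [Finset.coe_insert]
          exact indep_mono subset_union_left hins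
        · rw [Finset.card_insert_of_notMem hjP]
          omega
      calc F.card ≤ _ := Finset.card_le_card hcover
        _ ≤ ∑ Q ∈ (R j).powerset, (F.filter (fun S => S ∩ R j = Q)).card := card_biUnion_le
        _ ≤ ∑ Q ∈ (R j).powerset, (2 ^ L) ^ n := Finset.sum_le_sum hpiece
        _ = 2 ^ (R j).card * (2 ^ L) ^ n := by
            rw [Finset.sum_const, Finset.card_powerset, smul_eq_mul]
        _ ≤ 2 ^ L * (2 ^ L) ^ n :=
            Nat.mul_le_mul_right _ (Nat.pow_le_pow_right (by norm_num) (hL j))
        _ = (2 ^ L) ^ (n + 1) := by rw [pow_succ, mul_comm]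

end Pool.Agent.Q287.Reveal
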