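import Mathlib

/-! Slice rank decompositions of tensors. -/

namespace Pool.Agent.Q287.Slice

open Finset Module

universe u

variable {F : Type u} [Field F] {d : ℕ} {n : Fin d → ℕ}

/-- A slice rank decomposition of the order-`d` tensor `T` with factors `u j i` (vectors in the
`j`-th variable) and `v j i` (functions of the other variables). -/
structure Decomp (T : (∀ j, Fin (n j)) → F) where
  s : Fin d → ℕ
  u : ∀ j, Fin (s j) → (Fin (n j) → F)
  v : ∀ j, Fin (s j) → ((∀ l : {l // l ≠ j}, Fin (n l)) → F)
  eq : ∀ x, T x = ∑ j, ∑ i, u j i (x j) * v j i (fun l => x l)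

/-- The length of a decomposition. -/
def Decomp.length {T : (∀ j, Fin (n j)) → F} (D : Decomp T) : ℕ := ∑ j, D.s j

/-- The slice rank of `T`. -/
noncomputable def sliceRank (T : (∀ j, Fin (n j)) → F) : ℕ :=
  sInf {k | ∃ D : Decomp T, D.length = k}

/-- Leading positions of the vectors orthogonal to `s` given ones. -/
theorem exists_lead {N : ℕ} (s : ℕ) (u : Fin s → Fin N → F) :
    ∃ A : Finset (Fin N), A.card ≤ s ∧ ∀ a ∉ A, ∃ φ : Fin N → F,
      (∀ i, ∑ x, φ x * u i x = 0) ∧ φ a ≠ 0 ∧ ∀ x < a, φ x = 0 := by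
  classical
  let ev : (Fin N → F) →ₗ[F] (Fin s → F) :=
    { toFun := fun φ i => ∑ x, φ x * u i x
      map_add' := by
        intro φ ψ
        funext i
        simp [add_mul, Finset.sum_add_distrib]
      map_smul' := by
        intro c φ
        funext i
        simp [Finset.mul_sum, mul_assoc] }
  set U := LinearMap.ker ev with hU
  set S : Finset (Fin N) := univ.filter (fun a => ∃ φ ∈ U, φ a ≠ 0 ∧ ∀ x < a, φ x = 0) with hS
  have hinj : Function.Injective
      ((LinearMap.funLeft F F (fun a : S => (a : Fin N))).comp U.subtype) := by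
    rw [← LinearMap.ker_eq_bot, LinearMap.ker_eq_bot']
    rintro ⟨φ, hφ⟩ h0
    by_contra hne
    have hφ0 : φ ≠ 0 := fun h => hne (Subtype.ext h)
    have hex : (univ.filter (fun a => φ a ≠ 0)).Nonempty := by
      by_contra hcon
      rw [Finset.not_nonempty_iff_eq_empty] at hcon
      apply hφ0
      funext a
      by_contra ha
      have : a ∈ univ.filter (fun a => φ a ≠ 0) := by simpa using ha
      rw [hcon] at this
      exact absurd this (Finset.notMem_empty a)
    set a := (univ.filter (fun a => φ a ≠ 0)).min' hex with ha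
    have hamem := Finset.min'_mem _ hex
    rw [← ha, mem_filter] at hamem
    have haS : a ∈ S := by
      rw [hS, mem_filter]
      refine ⟨mem_univ _, φ, hφ, hamem.2, ?_⟩
      intro x hx
      by_contra hx0
      have := Finset.min'_le (univ.filter (fun a => φ a ≠ 0)) x (by simpa using hx0)
      rw [← ha] at this
      exact absurd hx (not_lt.2 this)
    have := congrFun h0 ⟨a, haS⟩
    exact hamem.2 this
  have h1 : finrank F U ≤ S.card := by
    have := LinearMap.finrank_le_finrank_of_injective hinj
    rwa [Module.finrank_fintype_fun_eq_card, Fintype.card_coe] at this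
  have h2 := LinearMap.finrank_range_add_finrank_ker ev
  rw [Module.finrank_fin_fun] at h2
  have h3 : finrank F (LinearMap.range ev) ≤ s := by
    have := Submodule.finrank_le (LinearMap.range ev)
    rwa [Module.finrank_fin_fun] at this
  refine ⟨Sᶜ, ?_, ?_⟩
  · rw [Finset.card_compl, Fintype.card_fin]
    rw [← hU] at h2
    omega
  · intro a ha
    rw [Finset.mem_compl, not_not, hS, mem_filter] at ha
    obtain ⟨-, φ, hφ, h4, h5⟩ := ha
    refine ⟨φ, fun i => ?_, h4, h5⟩
    have := congrFun (LinearMap.mem_ker.1 hφ) i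
    exact this

/-- A decomposition is killed by product test functions. -/
theorem sum_mul_prod_eq_zero {T : (∀ j, Fin (n j)) → F} (D : Decomp T)
    (φ : ∀ j, Fin (n j) → F) (hφ : ∀ j i, ∑ x, φ j x * D.u j i x = 0) :
    ∑ x, T x * ∏ j, φ j (x j) = 0 := by
  classical
  have h1 : ∀ x, T x * ∏ j, φ j (x j) =
      ∑ j, ∑ i, (D.u j i (x j) * D.v j i (fun l => x l)) * ∏ l, φ l (x l) := by
    intro x
    rw [D.eq x, Finset.sum_mul]
    exact Finset.sum_congr rfl fun j _ => by rw [Finset.sum_mul]
  simp only [h1]
  rw [Finset.sum_comm]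
  apply Finset.sum_eq_zero
  intro j _
  rw [Finset.sum_comm]
  apply Finset.sum_eq_zero
  intro i _
  rw [← (Equiv.piSplitAt j (fun j => Fin (n j))).symm.sum_comp, Fintype.sum_prod_type_right]
  apply Finset.sum_eq_zero
  intro y _
  have h2 : ∀ a : Fin (n j), ((Equiv.piSplitAt j (fun j => Fin (n j))).symm (a, y)) j = a := by
    intro a
    simp [Equiv.piSplitAt]
  have h3 : ∀ (a : Fin (n j)) (l : {l // l ≠ j}),
      ((Equiv.piSplitAt j (fun j => Fin (n j))).symm (a, y)) l = y l := by
    intro a l
    simp [Equiv.piSplitAt, l.2]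
  have h4 : ∀ a : Fin (n j), ∏ l, φ l ((Equiv.piSplitAt j (fun j => Fin (n j))).symm (a, y) l) =
      φ j a * ∏ l : {l // l ≠ j}, φ l (y l) := by
    intro a
    rw [← Finset.mul_prod_erase univ _ (mem_univ j), h2]
    congr 1
    rw [Finset.prod_subtype (univ.erase j) (p := fun l => l ≠ j) (by simp)
      (fun l => φ l ((Equiv.piSplitAt j (fun j => Fin (n j))).symm (a, y) l))]
    apply Finset.prod_congr rfl
    intro l _
    rw [h3]
  have h5 : ∀ a : Fin (n j), (fun l : {l // l ≠ j} =>
      ((Equiv.piSplitAt j (fun j => Fin (n j))).symm (a, y)) l) = y := by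
    intro a
    funext l
    exact h3 a l
  simp only [h2, h4, h5]
  calc ∑ a, D.u j i a * D.v j i y * (φ j a * ∏ l : {l // l ≠ j}, φ l (y l))
      = (∑ a, φ j a * D.u j i a) * (D.v j i y * ∏ l : {l // l ≠ j}, φ l (y l)) := by
        rw [Finset.sum_mul]
        exact Finset.sum_congr rfl fun a _ => by ring
    _ = 0 := by rw [hφ, zero_mul]

/-- A decomposition of a tensor supported on an antichain gives a cover of the support. -/
theorem exists_cover {T : (∀ j, Fin (n j)) → F} (D : Decomp T)
    (hanti : ∀ x y, T x ≠ 0 → T y ≠ 0 → x ≤ y → x = y) :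
    ∃ A : ∀ j, Finset (Fin (n j)), (∀ j, (A j).card ≤ D.s j) ∧
      ∀ x, T x ≠ 0 → ∃ j, x j ∈ A j := by
  classical
  choose A hA1 hA2 using fun j => exists_lead (D.s j) (D.u j)
  refine ⟨A, hA1, ?_⟩
  intro x hx
  by_contra hcon
  push Not at hcon
  choose φ hφ1 hφ2 hφ3 using fun j => hA2 j (x j) (hcon j)
  have h0 := sum_mul_prod_eq_zero D φ hφ1
  rw [Finset.sum_eq_single x] at h0
  · rcases mul_eq_zero.1 h0 with h | h
    · exact hx h
    · rw [Finset.prod_eq_zero_iff] at h
      obtain ⟨j, -, hj⟩ := h
      exact hφ2 j hj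
  · intro y _ hyx
    by_cases hy : T y = 0
    · rw [hy, zero_mul]
    · have hnle : ¬ x ≤ y := fun hle => hyx (hanti x y hx hy hle).symm
      rw [Pi.le_def] at hnle
      push Not at hnle
      obtain ⟨j, hj⟩ := hnle
      rw [Finset.prod_eq_zero (mem_univ j) (hφ3 j (y j) hj), mul_zero]
  · intro h
    exact absurd (mem_univ x) h

/-- A cover of the support gives a decomposition. -/
theorem exists_decomp {T : (∀ j, Fin (n j)) → F} (A : ∀ j, Finset (Fin (n j)))
    (hA : ∀ x, T x ≠ 0 → ∃ j, x j ∈ A j) :
    ∃ D : Decomp T, (∀ j, D.s j = (A j).card) ∧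
      ∀ j, ∀ a ∈ A j, (Pi.single a (1 : F) : Fin (n j) → F) ∈
        Submodule.span F (Set.range (D.u j)) := by
  classical
  refine ⟨⟨fun j => (A j).card, fun j i => Pi.single ((A j).equivFin.symm i : Fin (n j)) 1,
    fun j i y => if ∀ l : {l // l ≠ j}, (l : Fin d) < j → y l ∉ A l then
      T ((Equiv.piSplitAt j (fun j => Fin (n j))).symm ((A j).equivFin.symm i, y)) else 0, ?_⟩,
    fun j => rfl, ?_⟩
  · intro x
    have hinner : ∀ j, ∑ i : Fin (A j).card,
        (Pi.single ((A j).equivFin.symm i : Fin (n j)) (1 : F) : Fin (n j) → F) (x j) *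
          (if ∀ l : {l // l ≠ j}, (l : Fin d) < j → x l ∉ A l then
            T ((Equiv.piSplitAt j (fun j => Fin (n j))).symm
              ((A j).equivFin.symm i, fun l => x l)) else 0) =
        if x j ∈ A j ∧ ∀ l < j, x l ∉ A l then T x else 0 := by
      intro j
      by_cases hj : x j ∈ A j
      · rw [Finset.sum_eq_single ((A j).equivFin ⟨x j, hj⟩)]
        · rw [Equiv.symm_apply_apply]
          have h1 : (Equiv.piSplitAt j (fun j => Fin (n j))).symm (x j, fun l => x l) = x :=
            (Equiv.piSplitAt j (fun j => Fin (n j))).symm_apply_apply x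
          simp only [h1, Pi.single_eq_same, one_mul]
          have h2 : (∀ l : {l // l ≠ j}, (l : Fin d) < j → x l ∉ A l) ↔
              (x j ∈ A j ∧ ∀ l < j, x l ∉ A l) := by
            constructor
            · intro h
              exact ⟨hj, fun l hl => h ⟨l, ne_of_lt hl⟩ hl⟩
            · rintro ⟨-, h⟩ l hl
              exact h l hl
          simp only [h2]
        · intro i _ hi
          rw [Pi.single_eq_of_ne, zero_mul]
          intro h
          apply hi
          rw [← (A j).equivFin.apply_symm_apply i]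
          congr 1
          exact Subtype.ext h.symm
        · intro h
          exact absurd (mem_univ _) h
      · rw [if_neg (fun h => hj h.1)]
        apply Finset.sum_eq_zero
        intro i _
        rw [Pi.single_eq_of_ne, zero_mul]
        intro h
        apply hj
        rw [h]
        exact ((A j).equivFin.symm i).2
    show T x = ∑ j, ∑ i : Fin (A j).card,
        (Pi.single ((A j).equivFin.symm i : Fin (n j)) (1 : F) : Fin (n j) → F) (x j) *
          (if ∀ l : {l // l ≠ j}, (l : Fin d) < j → x l ∉ A l then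
            T ((Equiv.piSplitAt j (fun j => Fin (n j))).symm
              ((A j).equivFin.symm i, fun l => x l)) else 0)
    simp only [hinner]
    by_cases hx : T x = 0
    · simp [hx]
    · obtain ⟨j, hj⟩ := hA x hx
      have hne : (univ.filter (fun j => x j ∈ A j)).Nonempty := ⟨j, by simpa using hj⟩
      set j0 := (univ.filter (fun j => x j ∈ A j)).min' hne with hj0
      have hmem := Finset.min'_mem _ hne
      rw [← hj0, mem_filter] at hmem
      have hmin : ∀ l < j0, x l ∉ A l := by
        intro l hl hl2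
        have := Finset.min'_le (univ.filter (fun j => x j ∈ A j)) l (by simpa using hl2)
        rw [← hj0] at this
        exact absurd hl (not_lt.2 this)
      rw [Finset.sum_eq_single j0]
      · rw [if_pos ⟨hmem.2, hmin⟩]
      · intro l _ hl
        rw [if_neg]
        rintro ⟨h1, h2⟩
        rcases lt_or_gt_of_ne hl with h | h
        · exact hmin l h h1
        · exact h2 j0 h hmem.2
      · intro h
        exact absurd (mem_univ _) h
  · intro j a ha
    apply Submodule.subset_span
    refine ⟨(A j).equivFin ⟨a, ha⟩, ?_⟩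
    simp

/-- The slice rank of a tensor supported on an antichain is the least size of a cover. -/
theorem sliceRank_eq {T : (∀ j, Fin (n j)) → F}
    (hanti : ∀ x y, T x ≠ 0 → T y ≠ 0 → x ≤ y → x = y) (k : ℕ)
    (hlow : ∀ A : ∀ j, Finset (Fin (n j)), (∀ x, T x ≠ 0 → ∃ j, x j ∈ A j) → k ≤ ∑ j, (A j).card)
    (A : ∀ j, Finset (Fin (n j))) (hA : ∀ x, T x ≠ 0 → ∃ j, x j ∈ A j)
    (hk : ∑ j, (A j).card = k) : sliceRank T = k := by
  apply le_antisymm
  · obtain ⟨D, hD, -⟩ := exists_decomp A hA
    apply Nat.sInf_le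
    refine ⟨D, ?_⟩
    rw [← hk]
    exact Finset.sum_congr rfl fun j _ => hD j
  · apply le_csInf
    · obtain ⟨D, hD, -⟩ := exists_decomp A hA
      exact ⟨_, D, rfl⟩
    · rintro m ⟨D, rfl⟩
      obtain ⟨B, hB1, hB2⟩ := exists_cover D hanti
      exact (hlow B hB2).trans (Finset.sum_le_sum fun j _ => hB1 j)

end Pool.Agent.Q287.Slice
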