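import Pool.Agent.Q287.SliceKey

/-! Bounded subspaces containing all minimal annihilating tuples. -/

namespace Pool.Agent.Q287.SliceContain

open Module Pool.Agent.Q287.SliceKey

/-- The recursive bound. -/
def bd (d k : ℕ) : ℕ → ℕ
  | 0 => 0
  | t + 1 => bd d k t + (d * (1 + bd d k t) ^ d) * k

variable {F : Type*} [Field F] {d : ℕ}
variable {V : Fin d → Type*} [∀ l, AddCommGroup (V l)] [∀ l, Module F (V l)]
  [∀ l, FiniteDimensional F (V l)]

/-- The multilinear map vanishes on the product of the annihilators of the `D l`. -/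
def Ann (τ : MultilinearMap F (fun l => Dual F (V l)) F) (D : ∀ l, Submodule F (V l)) : Prop :=
  ∀ φ : ∀ l, Dual F (V l), (∀ l, ∀ v ∈ D l, φ l v = 0) → τ φ = 0

theorem finrank_iSup_le {W : Type*} [AddCommGroup W] [Module F W] [FiniteDimensional F W]
    (f : ℕ → Submodule F W) (N k : ℕ) (h : ∀ i < N, finrank F (f i) ≤ k) :
    finrank F (⨆ i < N, f i : Submodule F W) ≤ N * k := by
  induction N with
  | zero =>
    have : (⨆ i < 0, f i : Submodule F W) = ⊥ := by simp
    rw [this, finrank_bot]
    exact Nat.zero_le _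
  | succ N ih =>
    have h1 : (⨆ i < N + 1, f i : Submodule F W) ≤ (⨆ i < N, f i) ⊔ f N := by
      apply iSup₂_le
      intro i hi
      rcases Nat.lt_succ_iff_lt_or_eq.1 hi with h2 | h2
      · exact le_sup_of_le_left (le_iSup₂_of_le i h2 le_rfl)
      · subst h2
        exact le_sup_right
    have h3 := Submodule.finrank_mono h1
    have h4 := Submodule.finrank_add_le_finrank_add_finrank (⨆ i < N, f i : Submodule F W) (f N)
    have h5 := ih (fun i hi => h i (Nat.lt_succ_of_lt hi))
    have h6 := h N (Nat.lt_succ_self N)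
    have h7 : (N + 1) * k = N * k + k := by ring
    omega

theorem step (τ : MultilinearMap F (fun l => Dual F (V l)) F) (k : ℕ)
    (hmin : ∀ D : ∀ l, Submodule F (V l), Ann τ D → k ≤ ∑ l, finrank F (D l)) (t : ℕ)
    (htk : t < k) (B : ℕ) (S : ∀ l, Submodule F (V l)) (hS : ∀ l, finrank F (S l) ≤ B)
    (hSt : ∀ D : ∀ l, Submodule F (V l), Ann τ D → ∑ l, finrank F (D l) = k →
      t ≤ ∑ l, finrank F (D l ⊓ S l : Submodule F (V l))) :
    ∃ U : ∀ l, Submodule F (V l), (∀ l, finrank F (U l) ≤ B + (d * (1 + B) ^ d) * k) ∧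
      ∀ D : ∀ l, Submodule F (V l), Ann τ D → ∑ l, finrank F (D l) = k →
        t + 1 ≤ ∑ l, finrank F (D l ⊓ U l : Submodule F (V l)) := by
  classical
  let Good : ℕ → (ℕ → ∀ l, Submodule F (V l)) → Prop := fun N f => ∀ i < N,
    (Ann τ (f i) ∧ ∑ l, finrank F (f i l) = k) ∧
      ∑ l, finrank F (f i l ⊓ S l : Submodule F (V l)) = t ∧
      ∀ l, f i l ⊓ (S l ⊔ ⨆ i' < i, f i' l) ≤ S l
  have hbound : ∀ N f, Good N f → N ≤ d * (1 + B) ^ d := by
    intro N f hf
    by_contra hN
    push Not at hN
    have h3 : d * ∏ l : Fin d, (1 + finrank F (S l)) < N := by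
      refine lt_of_le_of_lt ?_ hN
      apply Nat.mul_le_mul_left
      calc ∏ l : Fin d, (1 + finrank F (S l)) ≤ ∏ _l : Fin d, (1 + B) :=
            Finset.prod_le_prod' fun l _ => Nat.add_le_add_left (hS l) 1
        _ = (1 + B) ^ d := by rw [Finset.prod_const, Finset.card_univ, Fintype.card_fin]
    obtain ⟨j, hj, hjann⟩ := key τ S f N (fun i hi => (hf i hi).1.1)
      (fun i hi => (hf i hi).2.2) h3
    have h4 := hmin (fun l => f j l ⊓ S l) (fun φ hφ => hjann φ (fun l v hv1 hv2 =>
      hφ l v ⟨hv1, hv2⟩))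
    have h5 := (hf j hj).2.1
    omega
  -- a maximal good sequence
  have hex : ∃ n, ¬ ∃ f, Good n f := by
    refine ⟨d * (1 + B) ^ d + 1, ?_⟩
    rintro ⟨f, hf⟩
    have := hbound _ f hf
    omega
  have hspec := Nat.find_spec hex
  have hmin' := fun m (hm : m < Nat.find hex) => Nat.find_min hex hm
  have hpos : Nat.find hex ≠ 0 := by
    intro h0
    rw [h0] at hspec
    apply hspec
    exact ⟨fun _ => S, fun i hi => absurd hi (Nat.not_lt_zero i)⟩
  obtain ⟨N, hN⟩ := Nat.exists_eq_succ_of_ne_zero hpos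
  rw [hN] at hspec
  have hNf := hmin' N (by omega)
  rw [not_not] at hNf
  obtain ⟨f, hf⟩ := hNf
  refine ⟨fun l => S l ⊔ ⨆ i < N, f i l, ?_, ?_⟩
  · intro l
    have h1 := Submodule.finrank_add_le_finrank_add_finrank (S l) (⨆ i < N, f i l)
    have h2 : finrank F (⨆ i < N, f i l : Submodule F (V l)) ≤ N * k := by
      apply finrank_iSup_le
      intro i hi
      rw [← (hf i hi).1.2]
      exact Finset.single_le_sum (f := fun l => finrank F (f i l)) (fun _ _ => Nat.zero_le _)
        (Finset.mem_univ l)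
    have h3 : N * k ≤ (d * (1 + B) ^ d) * k := Nat.mul_le_mul_right k (hbound N f hf)
    have h4 := hS l
    exact h1.trans (by omega)
  · intro D hD1 hD2
    have hle : ∀ l, D l ⊓ S l ≤ D l ⊓ (S l ⊔ ⨆ i < N, f i l) :=
      fun l => inf_le_inf_left _ le_sup_left
    have h1 := hSt D hD1 hD2
    rcases Nat.lt_or_ge t (∑ l, finrank F (D l ⊓ S l : Submodule F (V l))) with h2 | h2
    · calc t + 1 ≤ ∑ l, finrank F (D l ⊓ S l : Submodule F (V l)) := h2
        _ ≤ _ := Finset.sum_le_sum fun l _ => Submodule.finrank_mono (hle l)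
    · have heq : ∑ l, finrank F (D l ⊓ S l : Submodule F (V l)) = t := le_antisymm h2 h1
      have hex2 : ∃ l, ¬ (D l ⊓ (S l ⊔ ⨆ i < N, f i l) ≤ S l) := by
        by_contra hcon
        push Not at hcon
        apply hspec
        refine ⟨Function.update f N D, ?_⟩
        intro i hi
        have hsup : ∀ l, (⨆ i' < i, Function.update f N D i' l) = ⨆ i' < i, f i' l := by
          intro l
          apply iSup_congr
          intro i'
          apply iSup_congr
          intro hi'
          rw [Function.update_of_ne (by omega : i' ≠ N)]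
        rcases Nat.lt_succ_iff_lt_or_eq.1 hi with h3 | h3
        · rw [Function.update_of_ne (by omega : i ≠ N)]
          obtain ⟨a1, a2, a3⟩ := hf i h3
          refine ⟨a1, a2, fun l => ?_⟩
          rw [hsup]
          exact a3 l
        · subst h3
          rw [Function.update_self]
          refine ⟨⟨hD1, hD2⟩, heq, fun l => ?_⟩
          rw [hsup]
          exact hcon l
      obtain ⟨l0, hl0⟩ := hex2
      rw [← heq, Nat.succ_le_iff]
      apply Finset.sum_lt_sum
      · intro l _
        exact Submodule.finrank_mono (hle l)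
      · refine ⟨l0, Finset.mem_univ _, ?_⟩
        apply Submodule.finrank_lt_finrank_of_lt
        refine lt_of_le_of_ne (hle l0) fun h => hl0 ?_
        rw [← h]
        exact inf_le_right

theorem exists_container (τ : MultilinearMap F (fun l => Dual F (V l)) F) (k : ℕ)
    (hmin : ∀ D : ∀ l, Submodule F (V l), Ann τ D → k ≤ ∑ l, finrank F (D l)) :
    ∃ S : ∀ l, Submodule F (V l), (∀ l, finrank F (S l) ≤ bd d k k) ∧
      ∀ D : ∀ l, Submodule F (V l), Ann τ D → ∑ l, finrank F (D l) = k → ∀ l, D l ≤ S l := by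
  have hall : ∀ t ≤ k, ∃ S : ∀ l, Submodule F (V l), (∀ l, finrank F (S l) ≤ bd d k t) ∧
      ∀ D : ∀ l, Submodule F (V l), Ann τ D → ∑ l, finrank F (D l) = k →
        t ≤ ∑ l, finrank F (D l ⊓ S l : Submodule F (V l)) := by
    intro t
    induction t with
    | zero =>
      intro _
      refine ⟨fun _ => ⊥, fun l => ?_, fun D _ _ => Nat.zero_le _⟩
      rw [finrank_bot]
      exact Nat.zero_le _
    | succ t ih =>
      intro ht
      obtain ⟨S, hS1, hS2⟩ := ih (by omega)
      exact step τ k hmin t (by omega) (bd d k t) S hS1 hS2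
  obtain ⟨S, hS1, hS2⟩ := hall k le_rfl
  refine ⟨S, hS1, fun D hD1 hD2 l => ?_⟩
  have h1 := hS2 D hD1 hD2
  by_contra hl
  have h2 : ∑ l, finrank F (D l ⊓ S l : Submodule F (V l)) < ∑ l, finrank F (D l) := by
    apply Finset.sum_lt_sum
    · intro l _
      exact Submodule.finrank_mono inf_le_left
    · refine ⟨l, Finset.mem_univ _, ?_⟩
      apply Submodule.finrank_lt_finrank_of_lt
      refine lt_of_le_of_ne inf_le_left fun h => hl ?_
      rw [← h]
      exact inf_le_right
  omega

end Pool.Agent.Q287.SliceContain
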