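import Pool.Agent.Q287.SliceSel

/-! The key lemma on independent families of annihilating tuples. -/

namespace Pool.Agent.Q287.SliceKey

open Module Pool.Agent.Q287.SliceSel

variable {F : Type*} [Field F] {d : ℕ}

section dim

variable {X : Fin d → Type*} [∀ l, AddCommGroup (X l)] [∀ l, Module F (X l)]
  [∀ l, FiniteDimensional F (X l)]

theorem multilinear_dim : FiniteDimensional F (MultilinearMap F X F) ∧
    finrank F (MultilinearMap F X F) ≤ ∏ l, finrank F (X l) := by
  classical
  let b := fun l => finBasis F (X l)
  let ev : MultilinearMap F X F →ₗ[F] ((∀ l, Fin (finrank F (X l))) → F) :=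
    { toFun := fun G c => G (fun l => b l (c l))
      map_add' := by intro G H; rfl
      map_smul' := by intro c G; rfl }
  have hinj : Function.Injective ev := by
    rw [← LinearMap.ker_eq_bot, LinearMap.ker_eq_bot']
    intro G hG
    apply Basis.ext_multilinear b
    intro c
    exact congrFun hG c
  have hfd := FiniteDimensional.of_injective ev hinj
  refine ⟨hfd, ?_⟩
  have h1 := LinearMap.finrank_le_finrank_of_injective hinj
  rw [Module.finrank_fintype_fun_eq_card, Fintype.card_pi] at h1
  simpa using h1

end dim

variable {V : Fin d → Type*} [∀ l, AddCommGroup (V l)] [∀ l, Module F (V l)]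
  [∀ l, FiniteDimensional F (V l)]

theorem key (τ : MultilinearMap F (fun l => Dual F (V l)) F) (S : ∀ l, Submodule F (V l))
    (f : ℕ → ∀ l, Submodule F (V l)) (N : ℕ)
    (h1 : ∀ i < N, ∀ φ : ∀ l, Dual F (V l), (∀ l, ∀ v ∈ f i l, φ l v = 0) → τ φ = 0)
    (h2 : ∀ i < N, ∀ l, f i l ⊓ (S l ⊔ ⨆ i' < i, f i' l) ≤ S l)
    (h3 : d * ∏ l, (1 + finrank F (S l)) < N) :
    ∃ j < N, ∀ φ : ∀ l, Dual F (V l), (∀ l, ∀ v ∈ f j l, v ∈ S l → φ l v = 0) → τ φ = 0 := by
  classical
  choose e0 e g1 g2 g3 g4 g5 using fun l => exists_blocks (S l) (fun i => f i l) N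
    (fun i hi => h2 i hi l)
  -- the blocks
  let E : ∀ l, Option (Option (Fin N)) → (V l →ₗ[F] V l) := fun l b =>
    match b with
    | none => e0 l
    | some none => LinearMap.id - e0 l - ∑ i : Fin N, e l i
    | some (some i) => e l i
  have hEsum : ∀ l, ∑ b, E l b = LinearMap.id := by
    intro l
    rw [Fintype.sum_option, Fintype.sum_option]
    show e0 l + ((LinearMap.id - e0 l - ∑ i : Fin N, e l i) + ∑ i : Fin N, e l i) = LinearMap.id
    abel
  -- a block map kills `f i l` unless it is `none` or `some (some i)`
  have hkill : ∀ (i : Fin N) (l : Fin d) (b : Option (Option (Fin N))), b ≠ none →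
      b ≠ some (some i) → ∀ v ∈ f i l, E l b v = 0 := by
    intro i l b hb1 hb2 v hv
    rcases b with _ | _ | i'
    · exact absurd rfl hb1
    · show (LinearMap.id - e0 l - ∑ i : Fin N, e l i : V l →ₗ[F] V l) v = 0
      rw [LinearMap.sub_apply, LinearMap.sub_apply, LinearMap.id_apply, LinearMap.sum_apply,
        Finset.sum_eq_single i]
      · have := (g4 l i i.2 v hv).2
        rw [sub_sub, this, sub_self]
      · intro i' _ hne
        exact g5 l i i.2 i' i'.2 (fun h => hne (Fin.ext h.symm)) v hv
      · intro h
        exact absurd (Finset.mem_univ i) h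
    · exact g5 l i i.2 i' i'.2 (fun h => hb2 (by rw [Fin.ext h])) v hv
  -- the space of test maps
  let X : Fin d → Type _ := fun l => F × Dual F (S l)
  let I : Fin N → Submodule F (MultilinearMap F X F) := fun i =>
    { carrier := {G | ∀ x : ∀ l, X l, (∀ l, ∀ v : S l, (v : V l) ∈ f i l → (x l).2 v = 0) →
        G x = 0}
      add_mem' := by
        intro G H hG hH x hx
        rw [add_apply, hG x hx, hH x hx, add_zero]
      zero_mem' := by intro x _; rfl
      smul_mem' := by
        intro c G hG x hx
        rw [smul_apply, hG x hx, smul_zero] }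
  obtain ⟨hfd, hdim⟩ := multilinear_dim (F := F) (X := X)
  have hdim' : finrank F (MultilinearMap F X F) ≤ ∏ l, (1 + finrank F (S l)) := by
    refine hdim.trans (le_of_eq ?_)
    apply Finset.prod_congr rfl
    intro l _
    show finrank F (F × Dual F (S l)) = _
    rw [Module.finrank_prod, Module.finrank_self, Subspace.dual_finrank_eq]
  obtain ⟨j, hj⟩ := select' I _ hdim' d (by rw [Fintype.card_fin]; exact h3)
  refine ⟨j, j.2, ?_⟩
  intro φ hφ
  -- expand
  have hφE : φ = fun l => ∑ b, (φ l).comp (E l b) := by
    funext l
    apply LinearMap.ext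
    intro v
    have hv := LinearMap.congr_fun (hEsum l) v
    rw [LinearMap.sum_apply, LinearMap.id_apply] at hv
    rw [LinearMap.sum_apply]
    conv_lhs => rw [← hv, map_sum]
    rfl
  rw [hφE, MultilinearMap.map_sum]
  apply Finset.sum_eq_zero
  intro β _
  -- the test map of `β`
  let L : ∀ l, X l →ₗ[F] Dual F (V l) := fun l =>
    if β l = none then
      { toFun := fun x => x.2.comp ((e0 l).codRestrict (S l) (g1 l))
        map_add' := by intro x y; rfl
        map_smul' := by intro c x; rfl }
    else
      { toFun := fun x => x.1 • (φ l).comp (E l (β l))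
        map_add' := by intro x y; rw [Prod.fst_add, add_smul]
        map_smul' := by
          intro c x
          rw [Prod.smul_fst, smul_eq_mul, mul_smul, RingHom.id_apply] }
  have hL : ∀ l (x : X l), L l x = if β l = none then
      x.2.comp ((e0 l).codRestrict (S l) (g1 l)) else x.1 • (φ l).comp (E l (β l)) := by
    intro l x
    simp only [L]
    split_ifs <;> rfl
  let G : MultilinearMap F X F := τ.compLinearMap L
  let b : Finset (Fin N) := Finset.univ.filter (fun i => ∃ l, β l = some (some i))
  have hb : b.card ≤ d := by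
    have h4 : b.map ⟨fun i : Fin N => (some (some i) : Option (Option (Fin N))),
        fun x y h => Option.some_injective _ (Option.some_injective _ h)⟩ ⊆
        Finset.univ.image β := by
      intro y hy
      rw [Finset.mem_map] at hy
      obtain ⟨i, hi, rfl⟩ := hy
      obtain ⟨l, hl⟩ := (Finset.mem_filter.1 hi).2
      exact Finset.mem_image.2 ⟨l, Finset.mem_univ _, hl⟩
    have h5 := Finset.card_le_card h4
    rw [Finset.card_map] at h5
    refine h5.trans (Finset.card_image_le.trans ?_)
    rw [Finset.card_univ, Fintype.card_fin]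
  have hG : G ∈ I j := by
    apply hj b hb G
    intro i hi x hx
    show τ (fun l => L l (x l)) = 0
    apply h1 i i.2
    intro l v hv
    rw [hL]
    split_ifs with hβ
    · rw [LinearMap.comp_apply]
      apply hx l
      exact (g4 l i i.2 v hv).1
    · have hβ2 : β l ≠ some (some i) := by
        intro h
        exact hi (Finset.mem_filter.2 ⟨Finset.mem_univ _, l, h⟩)
      rw [LinearMap.smul_apply, LinearMap.comp_apply, hkill i l (β l) hβ hβ2 v hv, map_zero,
        smul_zero]
  have h6 := hG (fun l => (1, (φ l).comp (S l).subtype)) (by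
    intro l v hv
    exact hφ l v hv v.2)
  have h7 : G (fun l => (1, (φ l).comp (S l).subtype)) =
      τ (fun l => (φ l).comp (E l (β l))) := by
    show τ (fun l => L l (1, (φ l).comp (S l).subtype)) = _
    congr 1
    funext l
    rw [hL]
    split_ifs with hβ
    · rw [hβ]
      rfl
    · rw [one_smul]
  rw [← h7]
  exact h6

end Pool.Agent.Q287.SliceKey
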