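import Mathlib

/-! Selection of an index and block decompositions: tools for slice rank decompositions. -/

namespace Pool.Agent.Q287.SliceSel

open Module

section select

variable {F A ι : Type*} [Field F] [AddCommGroup A] [Module F A] [FiniteDimensional F A]
  [DecidableEq ι]

theorem exists_small (I : ι → Submodule F A) (s : Finset ι) :
    ∃ C ⊆ s, C.card + finrank F (⨅ i ∈ C, I i : Submodule F A) ≤ finrank F A ∧
      (⨅ i ∈ C, I i) = ⨅ i ∈ s, I i := by
  induction s using Finset.induction_on with
  | empty =>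
    refine ⟨∅, le_refl _, ?_, rfl⟩
    rw [Finset.card_empty, zero_add]
    exact Submodule.finrank_le _
  | insert a s ha ih =>
    obtain ⟨C, hC, h1, h2⟩ := ih
    by_cases hle : (⨅ i ∈ C, I i) ≤ I a
    · refine ⟨C, hC.trans (Finset.subset_insert a s), h1, ?_⟩
      rw [Finset.iInf_insert, ← h2, inf_eq_right.2 hle]
    · refine ⟨insert a C, Finset.insert_subset_insert a hC, ?_, ?_⟩
      · have haC : a ∉ C := fun h => hle (iInf₂_le a h)
        have hlt : (⨅ i ∈ insert a C, I i) < ⨅ i ∈ C, I i := by
          rw [Finset.iInf_insert]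
          refine lt_of_le_of_ne inf_le_right fun heq => hle ?_
          rw [← heq]
          exact inf_le_left
        have h3 := Submodule.finrank_lt_finrank_of_lt hlt
        rw [Finset.card_insert_of_notMem haC]
        omega
      · rw [Finset.iInf_insert, Finset.iInf_insert, h2]

theorem select (I : ι → Submodule F A) (M : ℕ) (hM : finrank F A ≤ M) (r : ℕ) :
    ∀ s : Finset ι, r * M < s.card → ∃ j ∈ s, ∀ b : Finset ι, b.card < r →
      (⨅ i ∈ (s \ b).erase j, I i) ≤ I j := by
  induction r with
  | zero =>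
    intro s hs
    obtain ⟨j, hj⟩ := Finset.card_pos.1 (lt_of_le_of_lt (Nat.zero_le _) hs)
    exact ⟨j, hj, fun b hb => absurd hb (Nat.not_lt_zero _)⟩
  | succ r ih =>
    intro s hs
    obtain ⟨C, hC, h1, h2⟩ := exists_small I s
    have hCM : C.card ≤ M := by omega
    have hcard : r * M < (s \ C).card := by
      rw [Finset.card_sdiff_of_subset hC]
      rw [add_mul, one_mul] at hs
      omega
    obtain ⟨j, hj, hjb⟩ := ih (s \ C) hcard
    obtain ⟨hjs, hjC⟩ := Finset.mem_sdiff.1 hj
    refine ⟨j, hjs, fun b hb => ?_⟩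
    by_cases hbC : Disjoint b C
    · have h3 : (⨅ i ∈ (s \ b).erase j, I i) ≤ ⨅ i ∈ C, I i := by
        apply le_iInf₂
        intro i hi
        apply iInf₂_le i
        rw [Finset.mem_erase, Finset.mem_sdiff]
        exact ⟨fun h => hjC (h ▸ hi), hC hi, fun h => Finset.disjoint_left.1 hbC h hi⟩
      refine h3.trans ?_
      rw [h2]
      exact iInf₂_le j hjs
    · have hlt : (b \ C).card < r := by
        have h4 : (b \ C).card < b.card := by
          apply Finset.card_lt_card
          refine ⟨Finset.sdiff_subset, fun h => hbC ?_⟩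
          rw [Finset.disjoint_left]
          intro x hx
          exact (Finset.mem_sdiff.1 (h hx)).2
        omega
      refine le_trans ?_ (hjb (b \ C) hlt)
      apply le_iInf₂
      intro i hi
      apply iInf₂_le i
      rw [Finset.mem_erase, Finset.mem_sdiff, Finset.mem_sdiff] at hi
      rw [Finset.mem_erase, Finset.mem_sdiff]
      exact ⟨hi.1, hi.2.1.1, fun h => hi.2.2 (Finset.mem_sdiff.2 ⟨h, hi.2.1.2⟩)⟩

/-- Some index is redundant for the intersections over the complements of small sets. -/
theorem select' [Fintype ι] (I : ι → Submodule F A) (M : ℕ) (hM : finrank F A ≤ M) (r : ℕ)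
    (hr : r * M < Fintype.card ι) :
    ∃ j, ∀ b : Finset ι, b.card ≤ r → ∀ x, (∀ i ∉ b, x ∈ I i) → x ∈ I j := by
  obtain ⟨j, -, hj⟩ := select I M hM r Finset.univ hr
  refine ⟨j, fun b hb x hx => ?_⟩
  by_cases hjb : j ∈ b
  · have h1 : (b.erase j).card < r := by
      have := Finset.card_erase_lt_of_mem hjb
      omega
    apply hj (b.erase j) h1
    simp only [Submodule.mem_iInf]
    intro i hi
    apply hx
    rw [Finset.mem_erase, Finset.mem_sdiff] at hi
    intro hib
    exact hi.2.2 (Finset.mem_erase.2 ⟨hi.1, hib⟩)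
  · exact hx j hjb

end select

section blocks

variable {F V : Type*} [Field F] [AddCommGroup V] [Module F V]

theorem exists_proj {U C : Submodule F V} (h : IsCompl U C) :
    ∃ p : V →ₗ[F] V, (∀ v, p v ∈ U) ∧ (∀ v ∈ U, p v = v) ∧ ∀ v ∈ C, p v = 0 := by
  refine ⟨U.subtype ∘ₗ (U.projectionOnto C h), fun v => ?_, fun v hv => ?_, fun v hv => ?_⟩
  · exact Subtype.mem _
  · have := Submodule.projectionOnto_apply_left h ⟨v, hv⟩
    simp only [LinearMap.comp_apply, Submodule.subtype_apply]
    rw [this]
  · have := Submodule.projectionOnto_apply_right h ⟨v, hv⟩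
    simp only [LinearMap.comp_apply, Submodule.subtype_apply]
    rw [this]
    rfl

theorem exists_blocks (S : Submodule F V) (f : ℕ → Submodule F V) (N : ℕ)
    (h : ∀ i < N, f i ⊓ (S ⊔ ⨆ i' < i, f i') ≤ S) :
    ∃ (e0 : V →ₗ[F] V) (e : ℕ → V →ₗ[F] V), (∀ v, e0 v ∈ S) ∧ (∀ v ∈ S, e0 v = v) ∧
      (∀ i < N, ∀ v ∈ S, e i v = 0) ∧ (∀ i < N, ∀ v ∈ f i, e0 v ∈ f i ∧ e0 v + e i v = v) ∧
      (∀ i < N, ∀ i' < N, i ≠ i' → ∀ v ∈ f i, e i' v = 0) := by
  induction N with
  | zero =>
    obtain ⟨C, hC⟩ := Submodule.exists_isCompl S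
    obtain ⟨p, hp1, hp2, -⟩ := exists_proj hC
    exact ⟨p, fun _ => 0, hp1, hp2, by simp, by simp, by simp⟩
  | succ N ih =>
    obtain ⟨e0, e, h1, h2, h3, h4, h5⟩ := ih (fun i hi => h i (Nat.lt_succ_of_lt hi))
    set U := S ⊔ ⨆ i' < N, f i' with hU
    have hfU : ∀ i < N, f i ≤ U := fun i hi => le_trans (le_iSup₂_of_le i hi le_rfl) le_sup_right
    have hSU : S ≤ U := le_sup_left
    -- a complement of `f N ⊓ U` in `f N`
    obtain ⟨C, hC⟩ := Submodule.exists_isCompl (f N ⊓ U)
    set Q := C ⊓ f N with hQ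
    have hQsup : (f N ⊓ U) ⊔ Q = f N := by
      rw [hQ, ← sup_inf_assoc_of_le C (inf_le_left : f N ⊓ U ≤ f N), hC.sup_eq_top, top_inf_eq]
    have hUQ : Disjoint U Q := by
      rw [disjoint_iff]
      rw [eq_bot_iff]
      have : U ⊓ Q ≤ (f N ⊓ U) ⊓ C := by
        refine le_inf (le_inf ?_ inf_le_left) ?_
        · exact inf_le_right.trans inf_le_right
        · exact inf_le_right.trans inf_le_left
      exact this.trans (le_of_eq hC.inf_eq_bot)
    obtain ⟨C2, hC2⟩ := Submodule.exists_isCompl (U ⊔ Q)
    have hcompl : IsCompl U (Q ⊔ C2) := by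
      constructor
      · exact Disjoint.disjoint_sup_right_of_disjoint_sup_left hUQ hC2.disjoint
      · rw [codisjoint_iff, ← sup_assoc]
        exact hC2.sup_eq_top
    obtain ⟨p, hp1, hp2, hp3⟩ := exists_proj hcompl
    have hp3' : ∀ v ∈ Q, p v = 0 := fun v hv => hp3 v (Submodule.mem_sup_left hv)
    have hPS : f N ⊓ U ≤ S := h N (Nat.lt_succ_self N)
    refine ⟨e0 ∘ₗ p, fun i => if i = N then LinearMap.id - p else e i ∘ₗ p, ?_, ?_, ?_, ?_, ?_⟩
    · intro v
      exact h1 _
    · intro v hv
      rw [LinearMap.comp_apply, hp2 v (hSU hv), h2 v hv]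
    · intro i hi v hv
      simp only
      split_ifs with hiN
      · rw [LinearMap.sub_apply, LinearMap.id_apply, hp2 v (hSU hv), sub_self]
      · rw [LinearMap.comp_apply, hp2 v (hSU hv)]
        exact h3 i (by omega) v hv
    · intro i hi v hv
      simp only
      split_ifs with hiN
      · subst hiN
        rw [← hQsup] at hv
        obtain ⟨a, ha, b, hb, rfl⟩ := Submodule.mem_sup.1 hv
        have hpa : p a = a := hp2 a ha.2
        have hpb : p b = 0 := hp3' b hb
        have hea : e0 a = a := h2 a (hPS ha)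
        refine ⟨?_, ?_⟩
        · rw [LinearMap.comp_apply, map_add, hpa, hpb, add_zero, hea]
          exact ha.1
        · rw [LinearMap.comp_apply, map_add, hpa, hpb, add_zero, hea, LinearMap.sub_apply,
            LinearMap.id_apply, map_add, hpa, hpb, add_zero]
          abel
      · have hi' : i < N := by omega
        rw [LinearMap.comp_apply, LinearMap.comp_apply, hp2 v (hfU i hi' hv)]
        exact h4 i hi' v hv
    · intro i hi i' hi' hne v hv
      simp only
      split_ifs with hiN
      · have hi2 : i < N := by omega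
        rw [LinearMap.sub_apply, LinearMap.id_apply, hp2 v (hfU i hi2 hv), sub_self]
      · by_cases hiN2 : i = N
        · subst hiN2
          rw [← hQsup] at hv
          obtain ⟨a, ha, b, hb, rfl⟩ := Submodule.mem_sup.1 hv
          rw [LinearMap.comp_apply, map_add, hp2 a ha.2, hp3' b hb, add_zero]
          exact h3 i' (by omega) a (hPS ha)
        · have hi2 : i < N := by omega
          rw [LinearMap.comp_apply, hp2 v (hfU i hi2 hv)]
          exact h5 i hi2 i' (by omega) hne v hv

end blocks

end Pool.Agent.Q287.SliceSel
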