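import Pool.Agent.Helper236.Tang

namespace Pool.Agent.Q287.TBlock

open Set Module Submodule Pool.Agent.Helper236

variable {α F W : Type*} [Field F] [AddCommGroup W] [Module F W] {M : Matroid α} {v : α → W}

theorem finrank_inf_ker [FiniteDimensional F W] (U : Submodule F W) (φ : W →ₗ[F] F) {t : W}
    (ht : t ∈ U) (h0 : φ t ≠ 0) :
    finrank F (U ⊓ LinearMap.ker φ : Submodule F W) + 1 = finrank F U := by
  have ht0 : t ≠ 0 := by
    rintro rfl
    exact h0 (map_zero φ)
  have h1 : (U ⊓ LinearMap.ker φ) ⊔ span F {t} = U := by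
    apply le_antisymm
    · apply sup_le inf_le_left
      rw [span_le]
      rintro _ rfl
      exact ht
    · intro w hw
      have : w = (w - (φ w / φ t) • t) + (φ w / φ t) • t := by abel
      rw [this]
      apply Submodule.add_mem_sup
      · refine ⟨U.sub_mem hw (U.smul_mem _ ht), ?_⟩
        simp [h0]
      · exact Submodule.smul_mem _ _ (mem_span_singleton_self t)
  have h2 : (U ⊓ LinearMap.ker φ) ⊓ span F {t} = ⊥ := by
    rw [eq_bot_iff]
    rintro w ⟨⟨-, hw2⟩, hw3⟩
    obtain ⟨c, rfl⟩ := mem_span_singleton.1 hw3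
    rw [SetLike.mem_coe, LinearMap.mem_ker, map_smul, smul_eq_mul] at hw2
    have : c = 0 := (mul_eq_zero.1 hw2).resolve_right h0
    rw [this, zero_smul]
    exact Submodule.zero_mem _
  have h3 := Submodule.finrank_sup_add_finrank_inf_eq (U ⊓ LinearMap.ker φ) (span F {t})
  rw [h1, h2, finrank_bot, finrank_span_singleton ht0] at h3
  omega

theorem span_inter_eq (h : Rep F M v) {H : Set α} (φ : W →ₗ[F] F)
    (hH : ∀ e, e ∈ H ↔ e ∈ M.E ∧ φ (v e) = 0)
    (hl : ∀ e ∈ M.E, ∀ f ∈ M.E, e ∉ H → f ∉ H → e ≠ f → ∃ x ∈ H, ∃ c : F, c ≠ 0 ∧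
      φ (v f) • v e - φ (v e) • v f = c • v x)
    {G : Set α} (hG : M.IsFlat G) {t : α} (htG : t ∈ G) (htH : t ∉ H) :
    span F (v '' (G ∩ H)) = span F (v '' G) ⊓ LinearMap.ker φ := by
  have hGE : G ⊆ M.E := hG.subset_ground
  have ht0 : φ (v t) ≠ 0 := fun h0 => htH ((hH t).2 ⟨hGE htG, h0⟩)
  apply le_antisymm
  · rw [span_le]
    rintro _ ⟨g, ⟨hg1, hg2⟩, rfl⟩
    exact ⟨subset_span (mem_image_of_mem v hg1), ((hH g).1 hg2).2⟩
  · rintro w ⟨hw1, hw2⟩
    have key : ∀ w ∈ span F (v '' G), w - (φ w / φ (v t)) • v t ∈ span F (v '' (G ∩ H)) := by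
      intro w hw
      induction hw using Submodule.span_induction with
      | mem x hx =>
        obtain ⟨g, hg, rfl⟩ := hx
        by_cases hgH : g ∈ H
        · rw [((hH g).1 hgH).2, zero_div, zero_smul, sub_zero]
          exact subset_span (mem_image_of_mem v ⟨hg, hgH⟩)
        · by_cases hgt : g = t
          · subst hgt
            rw [div_self ht0, one_smul, sub_self]
            exact Submodule.zero_mem _
          · obtain ⟨x, hx, c, hc, hxc⟩ := hl g (hGE hg) t (hGE htG) hgH htH hgt
            have hxE : x ∈ M.E := ((hH x).1 hx).1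
            have hxv : v x = c⁻¹ • (φ (v t) • v g - φ (v g) • v t) := by
              rw [hxc, smul_smul, inv_mul_cancel₀ hc, one_smul]
            have hxG : x ∈ G := by
              have hsub : ({g, t} : Set α) ⊆ G := by
                rintro y (rfl | rfl) <;> assumption
              have h1 : x ∈ M.closure {g, t} := by
                rw [h.mem_closure_iff (hsub.trans hGE) hxE, hxv, image_pair]
                apply Submodule.smul_mem
                apply Submodule.sub_mem
                · exact Submodule.smul_mem _ _ (subset_span (by simp))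
                · exact Submodule.smul_mem _ _ (subset_span (by simp))
              have h2 := M.closure_subset_closure hsub h1
              rwa [hG.closure] at h2
            have : v g - (φ (v g) / φ (v t)) • v t = ((φ (v t))⁻¹ * c) • v x := by
              rw [← smul_smul, ← hxc, smul_sub, smul_smul, smul_smul, inv_mul_cancel₀ ht0,
                one_smul, div_eq_inv_mul]
            rw [this]
            exact Submodule.smul_mem _ _ (subset_span (mem_image_of_mem v ⟨hxG, hx⟩))
      | zero => simp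
      | add x y _ _ hx hy =>
        have : x + y - (φ (x + y) / φ (v t)) • v t =
            (x - (φ x / φ (v t)) • v t) + (y - (φ y / φ (v t)) • v t) := by
          rw [map_add, add_div, add_smul]; abel
        rw [this]
        exact Submodule.add_mem _ hx hy
      | smul a x _ hx =>
        have : a • x - (φ (a • x) / φ (v t)) • v t = a • (x - (φ x / φ (v t)) • v t) := by
          rw [map_smul, smul_sub, smul_smul, smul_eq_mul, mul_div_assoc]
        rw [this]
        exact Submodule.smul_mem _ _ hx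
    have h1 := key w hw1
    rw [LinearMap.mem_ker.1 hw2, zero_div, zero_smul, sub_zero] at h1
    exact h1

/-- A hyperplane of a representable matroid which meets every line is modular. -/
theorem modular_of_meets (h : Rep F M v) [M.Finite] [FiniteDimensional F W] {H : Set α}
    (φ : W →ₗ[F] F) (hH : ∀ e, e ∈ H ↔ e ∈ M.E ∧ φ (v e) = 0) (hne : ∃ t ∈ M.E, t ∉ H)
    (hl : ∀ e ∈ M.E, ∀ f ∈ M.E, e ∉ H → f ∉ H → e ≠ f → ∃ x ∈ H, ∃ c : F, c ≠ 0 ∧
      φ (v f) • v e - φ (v e) • v f = c • v x) :
    IsModularHyperplane M H := by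
  have hHE : H ⊆ M.E := fun x hx => ((hH x).1 hx).1
  have hker : ∀ X ⊆ H, span F (v '' X) ≤ LinearMap.ker φ := by
    intro X hX
    rw [span_le]
    rintro _ ⟨e, he, rfl⟩
    exact ((hH e).1 (hX he)).2
  have hflat : M.IsFlat H := by
    rw [Matroid.isFlat_iff_closure_eq]
    apply Subset.antisymm _ (M.subset_closure H hHE)
    intro x hx
    have hxE := M.closure_subset_ground _ hx
    rw [h.mem_closure_iff hHE hxE] at hx
    exact (hH x).2 ⟨hxE, hker H Subset.rfl hx⟩
  have hrank : ∀ G, M.IsFlat G → ∀ t ∈ G, t ∉ H → rk M (H ∩ G) + 1 = rk M G := by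
    intro G hG t htG htH
    have hGE : G ⊆ M.E := hG.subset_ground
    rw [inter_comm, h.rk_eq (inter_subset_left.trans hGE), h.rk_eq hGE,
      span_inter_eq h φ hH hl hG htG htH]
    apply finrank_inf_ker _ _ (subset_span (mem_image_of_mem v htG))
    intro h0
    exact htH ((hH t).2 ⟨hGE htG, h0⟩)
  have hE : rk M H + 1 = rk M M.E := by
    obtain ⟨t, htE, htH⟩ := hne
    have := hrank M.E M.ground_isFlat t htE htH
    rwa [inter_eq_left.2 hHE] at this
  refine ⟨⟨hflat, ?_⟩, hE⟩
  intro G hG
  have hGE : G ⊆ M.E := hG.subset_ground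
  by_cases hGH : G ⊆ H
  · rw [union_eq_left.2 hGH, inter_eq_right.2 hGH]
  · obtain ⟨t, htG, htH⟩ := Set.not_subset.1 hGH
    have h1 := hrank G hG t htG htH
    have h2 : rk M (H ∪ G) = rk M M.E := by
      have hsub : H ∪ G ⊆ M.E := union_subset hHE hGE
      apply le_antisymm
      · rw [h.rk_eq hsub, h.rk_eq Subset.rfl]
        exact Submodule.finrank_mono (span_mono (image_mono hsub))
      · rw [← hE, Nat.succ_le_iff, h.rk_eq hsub, h.rk_eq hHE]
        apply Submodule.finrank_lt_finrank_of_lt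
        refine lt_of_le_of_ne (span_mono (image_mono subset_union_left)) fun heq => ?_
        have : v t ∈ span F (v '' H) := by
          rw [heq]
          exact subset_span (mem_image_of_mem v (Or.inr htG))
        exact htH ((hH t).2 ⟨hGE htG, hker H Subset.rfl this⟩)
    omega

/-- If a hyperplane meets every line and has at least `q` points outside it then every linear
functional vanishes at some point. -/
theorem block_one [Finite F] {H : Set α} (φ : W →ₗ[F] F)
    (hH : ∀ e, e ∈ H ↔ e ∈ M.E ∧ φ (v e) = 0)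
    (hl : ∀ e ∈ M.E, ∀ f ∈ M.E, e ∉ H → f ∉ H → e ≠ f → ∃ x ∈ H, ∃ c : F, c ≠ 0 ∧
      φ (v f) • v e - φ (v e) • v f = c • v x)
    (τ : F → α) (hτ : ∀ t, τ t ∈ M.E ∧ τ t ∉ H) (hinj : Function.Injective τ) (f : W →ₗ[F] F) :
    ∃ e ∈ M.E, f (v e) = 0 := by
  by_contra hcon
  push Not at hcon
  have hφ : ∀ t, φ (v (τ t)) ≠ 0 := fun t h0 => (hτ t).2 ((hH _).2 ⟨(hτ t).1, h0⟩)
  have h1 : Function.Injective (fun t => f (v (τ t)) / φ (v (τ t))) := by
    intro s t hst
    by_contra hne
    obtain ⟨x, hx, c, hc, hxc⟩ := hl (τ s) (hτ s).1 (τ t) (hτ t).1 (hτ s).2 (hτ t).2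
      (fun h => hne (hinj h))
    simp only at hst
    rw [div_eq_div_iff (hφ s) (hφ t)] at hst
    have h2 := congrArg f hxc
    rw [map_sub, map_smul, map_smul, map_smul, smul_eq_mul, smul_eq_mul, smul_eq_mul] at h2
    have h3 : c * f (v x) = 0 := by
      rw [← h2]
      linear_combination hst
    exact hcon x ((hH x).1 hx).1 ((mul_eq_zero.1 h3).resolve_left hc)
  have h2 := Finite.surjective_of_injective h1
  obtain ⟨t, ht⟩ := h2 0
  simp only at ht
  rw [div_eq_zero_iff] at ht
  exact hcon _ (hτ t).1 (ht.resolve_right (hφ t))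

theorem exists_fin_one [Finite F] (h : ∀ f : W →ₗ[F] F, ∃ e ∈ M.E, f (v e) = 0)
    (f : W →ₗ[F] (Fin 1 → F)) : ∃ e ∈ M.E, f (v e) = 0 := by
  obtain ⟨e, he, h0⟩ := h ((LinearMap.proj 0).comp f)
  refine ⟨e, he, ?_⟩
  ext j
  rw [Subsingleton.elim j 0]
  exact h0

end Pool.Agent.Q287.TBlock
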